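import Pool.Agent.L7h2.EN.One
import Pool.Agent.R474.AG.Fin

/-!
Lower bounds for the number of failures of relations between the digits of one number.
-/

set_option autoImplicit false

namespace Pool.Agent.L7h2.EN

open Polynomial Finset Filter Pool.Agent.H323R2

/-- blocks which are not constant `0` or `b - 1`, or failures -/
lemma case_none (b : ℕ) (ξ : ℝ) (m : ℕ) (q : ℕ → ℤ) (e : ℤ) (he0 : e ≠ 0)
    (he1 : e ≠ ((b : ℤ) - 1) * ∑ t ∈ range m, q t) (N : ℕ) :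
    N ≤ chg b ξ m N + fl1 b ξ m q e N := by
  classical
  unfold chg fl1
  calc N = (Icc 1 N).card := by simp
    _ ≤ _ := by
      rw [← Finset.card_union_add_card_inter]
      refine le_trans (Finset.card_le_card ?_) (Nat.le_add_right _ _)
      intro k hk
      rw [Finset.mem_union, Finset.mem_filter, Finset.mem_filter]
      by_contra hcon
      push Not at hcon
      have a1 := hcon.1 hk
      have a2 := hcon.2 hk
      unfold rs1 at a2
      rcases a1 with h | h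
      · rw [Finset.sum_eq_zero] at a2
        · exact he0 a2.symm
        · intro t ht
          rw [h t (Finset.mem_range.1 ht), mul_zero]
      · apply he1
        rw [← a2, Finset.mul_sum]
        apply Finset.sum_congr rfl
        intro t ht
        rw [h t (Finset.mem_range.1 ht)]
        ring

/-- number of digits different from `v` -/
noncomputable def oth (b : ℕ) (ξ : ℝ) (v : ℤ) (N : ℕ) : ℕ :=
  ((Icc 1 N).filter (fun k => dg b ξ k ≠ v)).card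

lemma case_zero (b : ℕ) (ξ : ℝ) (m : ℕ) (q : ℕ → ℤ) (e : ℤ)
    (he1 : e ≠ ((b : ℤ) - 1) * ∑ t ∈ range m, q t) (N : ℕ) :
    oth b ξ 0 N ≤ chg b ξ (m + 1) N + fl1 b ξ m q e N := by
  classical
  unfold oth chg fl1
  rw [← Finset.card_union_add_card_inter]
  refine le_trans (Finset.card_le_card ?_) (Nat.le_add_right _ _)
  intro k hk
  rw [Finset.mem_filter] at hk
  rw [Finset.mem_union, Finset.mem_filter, Finset.mem_filter]
  by_contra hcon
  push Not at hcon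
  have a1 := hcon.1 hk.1
  have a2 := hcon.2 hk.1
  unfold rs1 at a2
  rcases a1 with h | h
  · exact hk.2 (h 0 (by omega))
  · apply he1
    rw [← a2, Finset.mul_sum]
    apply Finset.sum_congr rfl
    intro t ht
    rw [h t (by have := Finset.mem_range.1 ht; omega)]
    ring

lemma case_top (b : ℕ) (ξ : ℝ) (m : ℕ) (q : ℕ → ℤ) (e : ℤ) (he0 : e ≠ 0) (N : ℕ) :
    oth b ξ ((b : ℤ) - 1) N ≤ chg b ξ (m + 1) N + fl1 b ξ m q e N := by
  classical
  unfold oth chg fl1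
  rw [← Finset.card_union_add_card_inter]
  refine le_trans (Finset.card_le_card ?_) (Nat.le_add_right _ _)
  intro k hk
  rw [Finset.mem_filter] at hk
  rw [Finset.mem_union, Finset.mem_filter, Finset.mem_filter]
  by_contra hcon
  push Not at hcon
  have a1 := hcon.1 hk.1
  have a2 := hcon.2 hk.1
  unfold rs1 at a2
  rcases a1 with h | h
  · rw [Finset.sum_eq_zero] at a2
    · exact he0 a2.symm
    · intro t ht
      rw [h t (by have := Finset.mem_range.1 ht; omega), mul_zero]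
  · exact hk.2 (h 0 (by omega))

lemma oth_lower (b : ℕ) (hb : 2 ≤ b) (ξ : ℝ) (halg : IsAlgebraic ℚ ξ) (hirr : Irrational ξ) :
    ∃ C : ℝ, 0 < C ∧ ∃ D : ℕ, 1 ≤ D ∧ ∀ v : ℤ, (v = 0 ∨ v = (b : ℤ) - 1) → ∀ N : ℕ,
      (N : ℝ) ≤ C * (1 + (oth b ξ v N : ℝ)) ^ D := by
  obtain ⟨c, hc, n0, h⟩ := Pool.Agent.R474.AG.cover_alg hb halg hirr
  set D := (minpoly ℚ ξ).natDegree with hD
  refine ⟨1 / c + n0, by positivity, D - 1 + 1, by omega, fun v hv N => ?_⟩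
  have h1 : (1 : ℝ) ≤ (1 + (oth b ξ v N : ℝ)) ^ (D - 1 + 1) := by
    apply one_le_pow₀
    have : (0 : ℝ) ≤ (oth b ξ v N : ℝ) := by positivity
    linarith
  rcases lt_or_ge N n0 with hN | hN
  · have h2 : (N : ℝ) ≤ n0 := by exact_mod_cast hN.le
    have h3 : (0 : ℝ) ≤ 1 / c := by positivity
    have h4 : (0 : ℝ) ≤ n0 := by positivity
    nlinarith
  · set S := (Icc 1 N).filter (fun k => dg b ξ k ≠ v) with hS
    set f : ℕ → ℕ := fun i => if h : i < S.card then S.orderEmbOfFin rfl ⟨i, h⟩ else 0 with hf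
    have h2 := h v hv N S.card f f hN (fun i _ => le_rfl) (by
      intro k hk hne
      have hkS : k ∈ S := by
        rw [hS, Finset.mem_filter]
        exact ⟨hk, hne⟩
      have : k ∈ Set.range (S.orderEmbOfFin rfl) := by
        rw [Finset.range_orderEmbOfFin]; exact hkS
      obtain ⟨i, hi⟩ := this
      refine ⟨i, i.2, ?_, ?_⟩
      · simp only [hf, i.2, dif_pos]
        rw [← hi]
      · simp only [hf, i.2, dif_pos]
        rw [← hi])
    have h3 : ((∑ i ∈ range S.card, (f i + 1 - f i) : ℕ) : ℝ) = (S.card : ℝ) := by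
      have : ∀ i, f i + 1 - f i = 1 := fun i => by omega
      simp [this]
    rw [h3, ← pow_succ] at h2
    have h4 : (oth b ξ v N : ℝ) = (S.card : ℝ) := rfl
    rw [h4]
    have h5 : (S.card : ℝ) ^ (D - 1 + 1) ≤ (1 + (S.card : ℝ)) ^ (D - 1 + 1) :=
      pow_le_pow_left₀ (by positivity) (by linarith) _
    have h6 : (N : ℝ) ≤ 1 / c * (1 + (S.card : ℝ)) ^ (D - 1 + 1) := by
      rw [one_div, ← div_eq_inv_mul, le_div_iff₀ hc]
      linarith
    rw [h4] at h1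
    have h7 : (0 : ℝ) ≤ n0 := by positivity
    nlinarith

lemma exists_eps (b T : ℕ) (hb : 2 ≤ b) : ∃ ε : ℝ, 0 < ε ∧ ε * (b : ℝ) ^ T < 1 := by
  have hb0 : (0 : ℝ) < (b : ℝ) ^ T := by positivity
  refine ⟨1 / (2 * (b : ℝ) ^ T), by positivity, ?_⟩
  rw [div_mul_eq_mul_div, one_mul, div_lt_one (by positivity)]
  linarith

/-- the estimate for `far` -/
def FarBd (b : ℕ) (ξ : ℝ) (m : ℕ) (q : ℕ → ℤ) (e : ℤ) : Prop :=
  ∀ ε : ℝ, 0 < ε → ∃ C : ℝ, 0 < C ∧ ∃ κ : ℕ, 1 ≤ κ ∧ ∀ N : ℕ, (far b ξ ε N : ℝ) ≤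
    C * (1 + (fl1 b ξ m q e (κ * N) : ℝ)) ^ κ

/-- the estimate with a denominator `w` -/
theorem farBd_w (b : ℕ) (hb : 2 ≤ b) (ξ : ℝ) (w : ℕ) (hw : w ≠ 0)
    (hint : IsIntegral ℤ ((w : ℝ) * ξ)) (m : ℕ) (q : ℕ → ℤ) (e : ℤ) (hq : ∃ t < m, q t ≠ 0)
    (hcop : ∀ p : ℕ, p.Prime → p ∣ w →
      (p : ℤ) ∣ ((b : ℤ) - 1) * ∑ t ∈ range m, q t * (b : ℤ) ^ t → p ∣ b) :
    FarBd b ξ m q e := by
  intro ε hε
  have hbb : (b - 1).Coprime b := (Nat.coprime_self_sub_left (by omega : 1 ≤ b)).2 (by simp)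
  by_cases hA : ∑ t ∈ range m, q t * (b : ℤ) ^ t = 0
  · rw [hA, mul_zero] at hcop
    obtain ⟨g, A1, s, h1, h2, h3⟩ := split_nat b w hw
    have hg : g = 1 := by
      by_contra hne
      obtain ⟨p, hp, hpg⟩ := Nat.exists_prime_and_dvd hne
      have hpb := hcop p hp (by rw [h1]; exact Dvd.dvd.mul_right hpg _) (dvd_zero _)
      have := Nat.dvd_gcd hpg hpb
      rw [h2.gcd_eq_one] at this
      exact hp.one_lt.ne' (Nat.dvd_one.1 this)
    rw [hg, one_mul] at h1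
    rw [← h1] at h3
    obtain ⟨d, hd⟩ := h3
    apply one_all b hb ξ s _ ε hε m q e hq
    have e1 : (b : ℝ) ^ s * ξ = ((d : ℤ) : ℝ) * ((w : ℝ) * ξ) := by
      have : (b : ℝ) ^ s = (w : ℝ) * d := by exact_mod_cast hd
      rw [this]; push_cast; ring
    rw [e1]
    exact IsIntegral.mul (isIntegral_algebraMap (R := ℤ) (x := (d : ℤ))) hint
  · obtain ⟨g, a, c, s, hg, hgb, hgA, hga, hac⟩ := split_int b _ hA
    obtain ⟨h, hm, hr⟩ := hint
    obtain ⟨κ, hκ, hκM⟩ := exists_kappa ((b - 1) * g) h.natDegree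
    have hwM : w.Coprime ((b - 1) * g) := by
      by_contra hnc
      obtain ⟨p, hp, hpw, hpM⟩ := Nat.Prime.not_coprime_iff_dvd.1 hnc
      have h1 : (p : ℤ) ∣ ((b : ℤ) - 1) * ∑ t ∈ range m, q t * (b : ℤ) ^ t := by
        rw [hga, ← mul_assoc]
        apply Dvd.dvd.mul_right
        have h2 : (p : ℤ) ∣ (((b - 1) * g : ℕ) : ℤ) := by exact_mod_cast hpM
        rw [Nat.cast_mul, Nat.cast_sub (by omega : 1 ≤ b)] at h2
        simpa using h2
      have hpb := hcop p hp hpw h1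
      have hcop2 : ((b - 1) * g).Coprime b := Nat.Coprime.mul_left hbb hgb
      have := Nat.dvd_gcd hpM hpb
      rw [hcop2.gcd_eq_one] at this
      exact hp.one_lt.ne' (Nat.dvd_one.1 this)
    obtain ⟨C, hC, h1⟩ := one_far b hb ξ m q e g hg hgb a c s hga hac w hw hwM h hm (by
        rw [eval_map]
        exact hr) κ hκ hκM ε hε
    exact ⟨C, hC, κ, hκ, h1⟩

lemma alg_of_int (ξ : ℝ) (w : ℕ) (hw : w ≠ 0) (hint : IsIntegral ℤ ((w : ℝ) * ξ)) :
    IsAlgebraic ℚ ξ := by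
  have hb0 : (w : ℝ) ≠ 0 := by exact_mod_cast hw
  have h2 : IsAlgebraic ℚ ((w : ℝ) * ξ) := (hint.tower_top (A := ℚ)).isAlgebraic
  have h3 : IsAlgebraic ℚ ((w : ℝ)⁻¹) := by
    have : ((w : ℝ)⁻¹) = algebraMap ℚ ℝ ((w : ℚ)⁻¹) := by simp
    rw [this]
    exact isAlgebraic_algebraMap _
  have h4 := h3.mul h2
  have e1 : (w : ℝ)⁻¹ * ((w : ℝ) * ξ) = ξ := by field_simp
  rwa [e1] at h4

/-- relations which are not satisfied by both constant words `0` and `b - 1` fail often -/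
theorem one_lower (b : ℕ) (hb : 2 ≤ b) (ξ : ℝ) (halg : IsAlgebraic ℚ ξ)
    (hirr : Irrational ξ) (m : ℕ) (q : ℕ → ℤ) (e : ℤ) (hfar : FarBd b ξ m q e)
    (hne : ¬ (e = 0 ∧ ∑ t ∈ range m, q t = 0)) :
    ∃ c δ : ℝ, 0 < c ∧ 0 < δ ∧ ∀ᶠ N : ℕ in atTop, c * (N : ℝ) ^ δ ≤ (fl1 b ξ m q e N : ℝ) := by
  obtain ⟨ε, hε, hεT⟩ := exists_eps b (m + 1) hb
  obtain ⟨C, hC, κ, hκ, h1⟩ := hfar ε hε
  have hchg : ∀ N, (chg b ξ (m + 1) N : ℝ) ≤ C * (1 + (fl1 b ξ m q e (κ * N) : ℝ)) ^ κ := by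
    intro N
    refine le_trans ?_ (h1 N)
    exact_mod_cast chg_le_far b hb ξ (m + 1) ε hεT N
  have hflk : ∀ N, (fl1 b ξ m q e N : ℝ) ≤ (1 + (fl1 b ξ m q e (κ * N) : ℝ)) ^ κ := by
    intro N
    have a1 : (fl1 b ξ m q e N : ℝ) ≤ (fl1 b ξ m q e (κ * N) : ℝ) := by
      exact_mod_cast fl1_mono b ξ m q e (Nat.le_mul_of_pos_left _ hκ)
    have a0 : (0 : ℝ) ≤ (fl1 b ξ m q e (κ * N) : ℝ) := by positivity
    have a2 : 1 + (fl1 b ξ m q e (κ * N) : ℝ) ≤ (1 + (fl1 b ξ m q e (κ * N) : ℝ)) ^ κ :=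
      le_self_pow₀ (by linarith) (by omega)
    linarith
  obtain ⟨C2, hC2, D, hD, h2⟩ := oth_lower b hb ξ halg hirr
  -- in all cases the number of digits different from `0` or from `b - 1` is bounded
  have hoth : ∃ v : ℤ, (v = 0 ∨ v = (b : ℤ) - 1) ∧ ∀ N,
      oth b ξ v N ≤ chg b ξ (m + 1) N + fl1 b ξ m q e N := by
    by_cases he0 : e = 0
    · refine ⟨0, Or.inl rfl, case_zero b ξ m q e ?_⟩
      rw [he0]
      intro hh
      apply hne
      refine ⟨he0, ?_⟩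
      have hb1 : ((b : ℤ) - 1) ≠ 0 := by
        have : (2 : ℤ) ≤ b := by exact_mod_cast hb
        omega
      rcases mul_eq_zero.1 hh.symm with h | h
      · exact absurd h hb1
      · exact h
    · exact ⟨(b : ℤ) - 1, Or.inr rfl, case_top b ξ m q e he0⟩
  obtain ⟨v, hv, h3⟩ := hoth
  have h4 : ∀ N : ℕ, (N : ℝ) ≤ C2 * (C + 2) ^ D *
      (1 + (fl1 b ξ m q e ((κ * D) * N) : ℝ)) ^ (κ * D) := by
    intro N
    have a1 := h2 v hv N
    have a2 : (oth b ξ v N : ℝ) ≤ (chg b ξ (m + 1) N : ℝ) + (fl1 b ξ m q e N : ℝ) := by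
      exact_mod_cast h3 N
    have a3 := hchg N
    have a4 := hflk N
    have a5 : (1 : ℝ) ≤ (1 + (fl1 b ξ m q e (κ * N) : ℝ)) ^ κ := by
      apply one_le_pow₀
      have : (0 : ℝ) ≤ (fl1 b ξ m q e (κ * N) : ℝ) := by positivity
      linarith
    have a6 : 1 + (oth b ξ v N : ℝ) ≤ (C + 2) * (1 + (fl1 b ξ m q e (κ * N) : ℝ)) ^ κ := by
      linarith
    have a7 : (1 + (fl1 b ξ m q e (κ * N) : ℝ)) ≤ (1 + (fl1 b ξ m q e ((κ * D) * N) : ℝ)) := by
      have : fl1 b ξ m q e (κ * N) ≤ fl1 b ξ m q e ((κ * D) * N) := by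
        apply fl1_mono
        calc κ * N = κ * 1 * N := by ring
          _ ≤ κ * D * N := Nat.mul_le_mul_right _ (Nat.mul_le_mul_left _ hD)
      have : (fl1 b ξ m q e (κ * N) : ℝ) ≤ (fl1 b ξ m q e ((κ * D) * N) : ℝ) := by
        exact_mod_cast this
      linarith
    calc (N : ℝ) ≤ C2 * (1 + (oth b ξ v N : ℝ)) ^ D := a1
      _ ≤ C2 * ((C + 2) * (1 + (fl1 b ξ m q e (κ * N) : ℝ)) ^ κ) ^ D := by
          apply mul_le_mul_of_nonneg_left _ hC2.le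
          exact pow_le_pow_left₀ (by positivity) a6 _
      _ = C2 * (C + 2) ^ D * (1 + (fl1 b ξ m q e (κ * N) : ℝ)) ^ (κ * D) := by
          rw [mul_pow, ← pow_mul]; ring
      _ ≤ _ := by
          apply mul_le_mul_of_nonneg_left _ (by positivity)
          exact pow_le_pow_left₀ (by positivity) a7 _
  obtain ⟨c, hc, h5⟩ := power_rescale (fun N => fl1 b ξ m q e N)
    (fun M N h => fl1_mono b ξ m q e h) (κ * D) (Nat.mul_pos hκ hD) _ (by positivity) h4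
  refine ⟨c, (1 : ℝ) / ((κ * D : ℕ) : ℝ), hc, ?_, h5⟩
  have : (0 : ℝ) < ((κ * D : ℕ) : ℝ) := by exact_mod_cast Nat.mul_pos hκ hD
  positivity

/-- comparison with digit changes -/
theorem one_changes (b : ℕ) (hb : 2 ≤ b) (ξ : ℝ) (m : ℕ) (q : ℕ → ℤ) (e : ℤ)
    (hfar : FarBd b ξ m q e) (T : ℕ) :
    ∃ C : ℝ, 0 < C ∧ ∃ κ : ℕ, 1 ≤ κ ∧ ∀ N : ℕ, (chg b ξ T N : ℝ) ≤
      C * (1 + (fl1 b ξ m q e (κ * N) : ℝ)) ^ κ := by
  obtain ⟨ε, hε, hεT⟩ := exists_eps b T hb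
  obtain ⟨C, hC, κ, hκ, h1⟩ := hfar ε hε
  refine ⟨C, hC, κ, hκ, fun N => le_trans ?_ (h1 N)⟩
  exact_mod_cast chg_le_far b hb ξ T ε hεT N

/-- explicit exponent for relations which are satisfied by neither of the constant words -/
theorem one_explicit (b : ℕ) (hb : 2 ≤ b) (ξ : ℝ) (m : ℕ) (q : ℕ → ℤ) (e : ℤ) (g : ℕ) (hg : g ≠ 0)
    (hgb : g.Coprime b) (a c : ℤ) (s : ℕ) (hA : ∑ t ∈ range m, q t * (b : ℤ) ^ t = g * a)
    (hac : a * c = (b : ℤ) ^ s) (w : ℕ) (hw : w ≠ 0) (hwM : w.Coprime ((b - 1) * g)) (h : ℤ[X])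
    (hm : h.Monic) (hr : (h.map (Int.castRingHom ℝ)).eval (w * ξ) = 0) (κ : ℕ) (hκ : 1 ≤ κ)
    (hκM : ∀ p ∈ ((b - 1) * g).primeFactors, ∃ j, h.natDegree ≤ p ^ j ∧
      p ^ (j * ((b - 1) * g).factorization p) ≤ κ) (he0 : e ≠ 0)
    (he1 : e ≠ ((b : ℤ) - 1) * ∑ t ∈ range m, q t) :
    ∃ c : ℝ, 0 < c ∧ ∀ᶠ N : ℕ in atTop,
      c * (N : ℝ) ^ ((1 : ℝ) / (κ : ℝ)) ≤ (fl1 b ξ m q e N : ℝ) := by
  obtain ⟨ε, hε, hεT⟩ := exists_eps b m hb
  obtain ⟨C, hC, h1⟩ := one_far b hb ξ m q e g hg hgb a c s hA hac w hw hwM h hm hr κ hκ hκM ε hε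
  refine power_rescale (fun N => fl1 b ξ m q e N) (fun M N h => fl1_mono b ξ m q e h) κ hκ (C + 1)
    (by positivity) (fun N => ?_)
  have a1 := case_none b ξ m q e he0 he1 N
  have a2 : (N : ℝ) ≤ (chg b ξ m N : ℝ) + (fl1 b ξ m q e N : ℝ) := by exact_mod_cast a1
  have a3 : (chg b ξ m N : ℝ) ≤ C * (1 + (fl1 b ξ m q e (κ * N) : ℝ)) ^ κ := by
    refine le_trans ?_ (h1 N)
    exact_mod_cast chg_le_far b hb ξ m ε hεT N
  have a4 : (fl1 b ξ m q e N : ℝ) ≤ (1 + (fl1 b ξ m q e (κ * N) : ℝ)) ^ κ := by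
    have a1 : (fl1 b ξ m q e N : ℝ) ≤ (fl1 b ξ m q e (κ * N) : ℝ) := by
      exact_mod_cast fl1_mono b ξ m q e (Nat.le_mul_of_pos_left _ hκ)
    have a0 : (0 : ℝ) ≤ (fl1 b ξ m q e (κ * N) : ℝ) := by positivity
    have a2 : 1 + (fl1 b ξ m q e (κ * N) : ℝ) ≤ (1 + (fl1 b ξ m q e (κ * N) : ℝ)) ^ κ :=
      le_self_pow₀ (by linarith) (by omega)
    linarith
  linarith

end Pool.Agent.L7h2.EN
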