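import Pool.Agent.H323R2.Chg

/-!
Iterated division: if `U_K = b^K t + O(1)` with `t = M γ`, `γ` integral, `M` prime to `b`, then `M`
divides `U_K` for all but few `K`.
-/

set_option autoImplicit false

namespace Pool.Agent.L7h2.EN

open Polynomial Finset Pool.Agent.H323R2

/-- number of `K ≤ N` with `M ∤ U_K` -/
noncomputable def nd (M : ℕ) (U : ℕ → ℤ) (N : ℕ) : ℕ :=
  ((range (N + 1)).filter (fun K => ¬ (M : ℤ) ∣ U K)).card

/-- the Frobenius polynomial for `p^(i+1) γ` -/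
lemma frob_poly (p j i : ℕ) [Fact p.Prime] (h : ℤ[X]) (hm : h.Monic) (hd : h.natDegree ≤ p ^ j)
    (γ : ℝ) (hr : (h.map (Int.castRingHom ℝ)).eval γ = 0) :
    ∃ F : ℤ[X], F.map (Int.castRingHom (ZMod p)) = C 1 * X ^ (p ^ j) ∧ F.natDegree = p ^ j ∧
      (F.map (Int.castRingHom ℝ)).eval ((p : ℝ) ^ (i + 1) * γ) = 0 := by
  have hp : p.Prime := Fact.out
  set G := scaleRoots h ((p : ℤ) ^ (i + 1)) with hG
  have hGm : G.Monic := (monic_scaleRoots_iff _).2 hm
  have hGd : G.natDegree = h.natDegree := natDegree_scaleRoots _ _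
  have hroot : (G.map (Int.castRingHom ℝ)).eval ((p : ℝ) ^ (i + 1) * γ) = 0 := by
    have := scaleRoots_eval₂_mul (p := h) (Int.castRingHom ℝ) γ ((p : ℤ) ^ (i + 1))
    rw [eval_map] at hr
    rw [hr, mul_zero] at this
    rw [eval_map, hG]
    simpa using this
  refine ⟨G * X ^ (p ^ j - G.natDegree), ?_, ?_, ?_⟩
  · have h1 : G.map (Int.castRingHom (ZMod p)) = X ^ G.natDegree := by
      ext k
      rw [coeff_map, coeff_X_pow]
      rcases lt_trichotomy k G.natDegree with hi | hi | hi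
      · rw [if_neg hi.ne]
        have h2 : (p : ℤ) ∣ G.coeff k := by
          rw [hG, coeff_scaleRoots]
          apply Dvd.dvd.mul_left
          rw [← pow_mul]
          apply dvd_pow_self
          have : 0 < h.natDegree - k := by omega
          have : 0 < (i + 1) * (h.natDegree - k) := Nat.mul_pos (by omega) this
          omega
        rw [← ZMod.intCast_zmod_eq_zero_iff_dvd] at h2
        exact h2
      · rw [if_pos hi, hi, hGm.coeff_natDegree]; simp
      · rw [if_neg hi.ne', coeff_eq_zero_of_natDegree_lt hi]; simp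
    rw [Polynomial.map_mul, h1, Polynomial.map_pow, Polynomial.map_X, ← pow_add,
      Nat.add_sub_cancel' (by omega)]
    simp
  · rw [hGm.natDegree_mul (monic_X_pow _), natDegree_X_pow]
    omega
  · rw [Polynomial.map_mul, eval_mul, hroot, zero_mul]

/-- iterated division by `p` -/
theorem nd_pow (p j : ℕ) [Fact p.Prime] (b : ℕ) (hb : 2 ≤ b) (hbp : ¬ p ∣ b) (h : ℤ[X])
    (hm : h.Monic) (hd : h.natDegree ≤ p ^ j) (γ : ℝ)
    (hr : (h.map (Int.castRingHom ℝ)).eval γ = 0) (r : ℕ) :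
    ∀ C0 : ℝ, ∃ C : ℝ, 0 < C ∧ ∀ U : ℕ → ℤ,
      (∀ K, |(U K : ℝ) - (b : ℝ) ^ K * ((p : ℝ) ^ r * γ)| ≤ C0) → ∀ N : ℕ,
        (nd (p ^ r) U N : ℝ) ≤ C * (1 + (V b U (p ^ (j * r) * N) : ℝ)) ^ (p ^ (j * r)) := by
  have hp : p.Prime := Fact.out
  have hbp' : (b : ZMod p) ≠ 0 := by rwa [Ne, ZMod.natCast_eq_zero_iff]
  induction r with
  | zero =>
    intro C0
    refine ⟨1, one_pos, fun U _ N => ?_⟩
    have h0 : nd (p ^ 0) U N = 0 := by
      unfold nd
      simp
    rw [h0]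
    have hV0 : (0 : ℝ) ≤ (V b U (p ^ (j * 0) * N) : ℝ) := by exact_mod_cast V_nonneg b U _
    simp only [Nat.cast_zero]
    positivity
  | succ r ih =>
    intro C0
    obtain ⟨F, hF, hFd, hFr⟩ := frob_poly p j r h hm hd γ hr
    have hq : 0 < p ^ j := pow_pos hp.pos _
    obtain ⟨C1, hC1, h1⟩ := step p b hb hbp' j F 1 one_ne_zero hF (by omega)
      ((p : ℝ) ^ (r + 1) * γ) C0 hFr
    obtain ⟨C2, hC2, h2⟩ := ih (C0 + 1)
    refine ⟨C1 + C2 * (1 + C1) ^ (p ^ (j * r)), by positivity, ?_⟩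
    intro U hU N
    have hp0 : (p : ℝ) ≠ 0 := by exact_mod_cast hp.ne_zero
    have hdiv : ∀ K, |(((U K / p : ℤ)) : ℝ) - (b : ℝ) ^ K * ((p : ℝ) ^ r * γ)| ≤ C0 + 1 := by
      intro K
      have := approx_div p b hp.pos U _ C0 hU K
      have e : (p : ℝ) ^ (r + 1) * γ / p = (p : ℝ) ^ r * γ := by
        rw [pow_succ]; field_simp
      rwa [e] at this
    have h3 := h2 (fun K => U K / p) hdiv N
    obtain ⟨-, h4⟩ := h1 U hU (p ^ (j * r) * N)
    obtain ⟨h5, -⟩ := h1 U hU N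
    rw [hFd] at h4 h5
    have e1 : p ^ j * (p ^ (j * r) * N) = p ^ (j * (r + 1)) * N := by
      rw [← mul_assoc, ← pow_add]; congr 2; ring
    rw [e1] at h4
    set W : ℝ := 1 + (V b U (p ^ (j * (r + 1)) * N) : ℝ) with hW
    have hV0 : (0 : ℝ) ≤ (V b U (p ^ (j * (r + 1)) * N) : ℝ) := by exact_mod_cast V_nonneg b U _
    have hW1 : 1 ≤ W := by linarith
    have hWp : ∀ k : ℕ, (1 : ℝ) ≤ W ^ k := fun k => one_le_pow₀ hW1
    have hcard : (nd (p ^ (r + 1)) U N : ℝ) ≤ (bad p U N : ℝ) +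
        (nd (p ^ r) (fun K => U K / p) N : ℝ) := by
      have : nd (p ^ (r + 1)) U N ≤ bad p U N + nd (p ^ r) (fun K => U K / p) N := by
        unfold nd bad
        rw [← Finset.card_union_add_card_inter]
        refine le_trans (Finset.card_le_card ?_) (Nat.le_add_right _ _)
        intro K hK
        rw [Finset.mem_filter] at hK
        rw [Finset.mem_union, Finset.mem_filter, Finset.mem_filter]
        by_contra hcon
        push Not at hcon
        have a1 := hcon.1 hK.1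
        have a2 := hcon.2 hK.1
        apply hK.2
        obtain ⟨x, hx⟩ := a1
        have hx' : U K / (p : ℤ) = x := by
          rw [hx, Int.mul_ediv_cancel_left _ (by exact_mod_cast hp.ne_zero)]
        rw [hx'] at a2
        rw [hx]
        obtain ⟨y, hy⟩ := a2
        refine ⟨y, ?_⟩
        rw [hy]; push_cast; ring
      exact_mod_cast this
    have h6 : (bad p U N : ℝ) ≤ C1 * W ^ (p ^ (j * (r + 1))) := by
      refine h5.trans ?_
      apply mul_le_mul_of_nonneg_left _ hC1.le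
      have hle : p ^ j * N ≤ p ^ (j * (r + 1)) * N :=
        Nat.mul_le_mul_right _ (Nat.pow_le_pow_right hp.pos (by nlinarith))
      have a1 : (V b U (p ^ j * N) : ℝ) ≤ (V b U (p ^ (j * (r + 1)) * N) : ℝ) := by
        exact_mod_cast V_mono b U hle
      have a2 : (0 : ℝ) ≤ (V b U (p ^ j * N) : ℝ) := by exact_mod_cast V_nonneg b U _
      calc (1 + (V b U (p ^ j * N) : ℝ)) ^ (p ^ j) ≤ W ^ (p ^ j) :=
            pow_le_pow_left₀ (by linarith) (by linarith) _
        _ ≤ W ^ (p ^ (j * (r + 1))) :=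
            pow_le_pow_right₀ hW1 (Nat.pow_le_pow_right hp.pos (by nlinarith))
    have h7 : (nd (p ^ r) (fun K => U K / p) N : ℝ) ≤
        C2 * (1 + C1) ^ (p ^ (j * r)) * W ^ (p ^ (j * (r + 1))) := by
      refine h3.trans ?_
      have a2 : (0 : ℝ) ≤ (V b (fun K => U K / p) (p ^ (j * r) * N) : ℝ) := by
        exact_mod_cast V_nonneg b _ _
      have a3 : 1 + (V b (fun K => U K / p) (p ^ (j * r) * N) : ℝ) ≤ (1 + C1) * W ^ (p ^ j) := by
        have := hWp (p ^ j)
        nlinarith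
      calc C2 * (1 + (V b (fun K => U K / p) (p ^ (j * r) * N) : ℝ)) ^ (p ^ (j * r))
          ≤ C2 * ((1 + C1) * W ^ (p ^ j)) ^ (p ^ (j * r)) := by
            apply mul_le_mul_of_nonneg_left _ hC2.le
            exact pow_le_pow_left₀ (by linarith) a3 _
        _ = C2 * (1 + C1) ^ (p ^ (j * r)) * W ^ (p ^ (j * (r + 1))) := by
            rw [mul_pow, ← pow_mul, ← pow_add]
            rw [show j + j * r = j * (r + 1) by ring]
            ring
    calc (nd (p ^ (r + 1)) U N : ℝ) ≤ _ := hcard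
      _ ≤ C1 * W ^ (p ^ (j * (r + 1))) + C2 * (1 + C1) ^ (p ^ (j * r)) * W ^ (p ^ (j * (r + 1))) :=
          add_le_add h6 h7
      _ = _ := by ring

/-- **Divisibility by `M`.** -/
theorem nd_main (b : ℕ) (hb : 2 ≤ b) (M : ℕ) (hM : M ≠ 0) (hcop : M.Coprime b) (h : ℤ[X])
    (hm : h.Monic) (γ : ℝ) (hr : (h.map (Int.castRingHom ℝ)).eval γ = 0) (κ : ℕ)
    (hκM : ∀ p ∈ M.primeFactors, ∃ j, h.natDegree ≤ p ^ j ∧ p ^ (j * M.factorization p) ≤ κ)
    (C0 : ℝ) :
    ∃ C : ℝ, 0 < C ∧ ∀ U : ℕ → ℤ, (∀ K, |(U K : ℝ) - (b : ℝ) ^ K * ((M : ℝ) * γ)| ≤ C0) →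
      ∀ N : ℕ, (nd M U N : ℝ) ≤ C * (1 + (V b U (κ * N) : ℝ)) ^ κ := by
  have key : ∀ p : ℕ, ∃ C : ℝ, 0 < C ∧ (p ∈ M.primeFactors → ∀ U : ℕ → ℤ,
      (∀ K, |(U K : ℝ) - (b : ℝ) ^ K * ((M : ℝ) * γ)| ≤ C0) →
      ∀ N : ℕ, (nd (p ^ M.factorization p) U N : ℝ) ≤ C * (1 + (V b U (κ * N) : ℝ)) ^ κ) := by
    intro p
    by_cases hpM : p ∈ M.primeFactors
    swap
    · exact ⟨1, one_pos, fun hh => absurd hh hpM⟩
    have hp : p.Prime := Nat.prime_of_mem_primeFactors hpM
    have hfact : Fact p.Prime := ⟨hp⟩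
    have hpd : p ∣ M := Nat.dvd_of_mem_primeFactors hpM
    have hpb : ¬ p ∣ b := fun hh => by
      have := Nat.dvd_gcd hpd hh
      rw [hcop.gcd_eq_one] at this
      exact hp.one_lt.ne' (Nat.dvd_one.1 this)
    obtain ⟨j, hj1, hj2⟩ := hκM p hpM
    set r := M.factorization p with hrdef
    set M' := M / p ^ r with hM'
    have hMM : M = p ^ r * M' := (Nat.ordProj_mul_ordCompl_eq_self M p).symm
    set h' := scaleRoots h (M' : ℤ) with hh'
    have hm' : h'.Monic := (monic_scaleRoots_iff _).2 hm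
    have hd' : h'.natDegree ≤ p ^ j := by rw [hh', natDegree_scaleRoots]; exact hj1
    have hr' : (h'.map (Int.castRingHom ℝ)).eval ((M' : ℝ) * γ) = 0 := by
      have := scaleRoots_eval₂_mul (p := h) (Int.castRingHom ℝ) γ (M' : ℤ)
      rw [eval_map] at hr
      rw [hr, mul_zero] at this
      rw [eval_map, hh']
      simpa using this
    obtain ⟨C, hC, h1⟩ := nd_pow p j b hb hpb h' hm' hd' ((M' : ℝ) * γ) hr' r C0
    refine ⟨C, hC, fun _ U hU N => ?_⟩
    have e : (M : ℝ) * γ = (p : ℝ) ^ r * ((M' : ℝ) * γ) := by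
      conv_lhs => rw [hMM]
      push_cast; ring
    have h2 := h1 U (by
      intro K
      rw [← e]; exact hU K) N
    refine h2.trans ?_
    apply mul_le_mul_of_nonneg_left _ hC.le
    have a1 : (V b U (p ^ (j * r) * N) : ℝ) ≤ (V b U (κ * N) : ℝ) := by
      exact_mod_cast V_mono b U (Nat.mul_le_mul_right _ hj2)
    have a2 : (0 : ℝ) ≤ (V b U (p ^ (j * r) * N) : ℝ) := by exact_mod_cast V_nonneg b U _
    calc (1 + (V b U (p ^ (j * r) * N) : ℝ)) ^ (p ^ (j * r))
        ≤ (1 + (V b U (κ * N) : ℝ)) ^ (p ^ (j * r)) :=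
          pow_le_pow_left₀ (by linarith) (by linarith) _
      _ ≤ (1 + (V b U (κ * N) : ℝ)) ^ κ := pow_le_pow_right₀ (by linarith) hj2
  choose C hC h1 using key
  refine ⟨1 + ∑ p ∈ M.primeFactors, C p, ?_, ?_⟩
  · have : 0 ≤ ∑ p ∈ M.primeFactors, C p := Finset.sum_nonneg fun p _ => (hC p).le
    linarith
  intro U hU N
  have hcard : nd M U N ≤ ∑ p ∈ M.primeFactors, nd (p ^ M.factorization p) U N := by
    unfold nd
    refine le_trans (Finset.card_le_card ?_) (Finset.card_biUnion_le)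
    intro K hK
    rw [Finset.mem_filter] at hK
    rw [Finset.mem_biUnion]
    by_contra hcon
    push Not at hcon
    apply hK.2
    have hall : ∀ p ∈ M.primeFactors, ((p ^ M.factorization p : ℕ) : ℤ) ∣ U K := by
      intro p hp
      have := hcon p hp
      rw [Finset.mem_filter, not_and, not_not] at this
      exact this hK.1
    rw [Int.natCast_dvd, Nat.dvd_iff_prime_pow_dvd_dvd]
    intro p k hp hk
    rcases Nat.eq_zero_or_pos k with hk0 | hk0
    · rw [hk0]; simp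
    have hpM : p ∈ M.primeFactors :=
      Nat.mem_primeFactors.2 ⟨hp, (dvd_pow_self p (by omega)).trans hk, hM⟩
    have h2 := hall p hpM
    rw [Int.natCast_dvd] at h2
    have h3 : k ≤ M.factorization p := (hp.pow_dvd_iff_le_factorization hM).1 hk
    exact (pow_dvd_pow p h3).trans h2
  have hV0 : (0 : ℝ) ≤ (V b U (κ * N) : ℝ) := by exact_mod_cast V_nonneg b U _
  calc (nd M U N : ℝ) ≤ ((∑ p ∈ M.primeFactors, nd (p ^ M.factorization p) U N : ℕ) : ℝ) := by
        exact_mod_cast hcard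
    _ = ∑ p ∈ M.primeFactors, (nd (p ^ M.factorization p) U N : ℝ) := by push_cast; rfl
    _ ≤ ∑ p ∈ M.primeFactors, C p * (1 + (V b U (κ * N) : ℝ)) ^ κ :=
        Finset.sum_le_sum fun p hp => h1 p hp U hU N
    _ = (∑ p ∈ M.primeFactors, C p) * (1 + (V b U (κ * N) : ℝ)) ^ κ := by
        rw [Finset.sum_mul]
    _ ≤ (1 + ∑ p ∈ M.primeFactors, C p) * (1 + (V b U (κ * N) : ℝ)) ^ κ := by
        apply mul_le_mul_of_nonneg_right _ (by positivity)
        linarith

/-- the same with a denominator `w` prime to `M` -/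
theorem nd_den (b : ℕ) (hb : 2 ≤ b) (M : ℕ) (hM : M ≠ 0) (hcop : M.Coprime b) (h : ℤ[X])
    (hm : h.Monic) (γ : ℝ) (w : ℕ) (hw : w ≠ 0) (hwM : w.Coprime M)
    (hr : (h.map (Int.castRingHom ℝ)).eval (w * γ) = 0) (κ : ℕ)
    (hκM : ∀ p ∈ M.primeFactors, ∃ j, h.natDegree ≤ p ^ j ∧ p ^ (j * M.factorization p) ≤ κ)
    (C0 : ℝ) :
    ∃ C : ℝ, 0 < C ∧ ∀ U : ℕ → ℤ, (∀ K, |(U K : ℝ) - (b : ℝ) ^ K * ((M : ℝ) * γ)| ≤ C0) →
      ∀ N : ℕ, (nd M U N : ℝ) ≤ C * (1 + (V b U (κ * N) : ℝ)) ^ κ := by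
  obtain ⟨C, hC, h1⟩ := nd_main b hb M hM hcop h hm (w * γ) hr κ hκM (w * C0)
  have hw0 : (0 : ℝ) < w := by exact_mod_cast Nat.pos_of_ne_zero hw
  refine ⟨C * (1 + w) ^ κ, by positivity, ?_⟩
  intro U hU N
  have h2 := h1 (fun K => (w : ℤ) * U K) (by
    intro K
    have e : (((w : ℤ) * U K : ℤ) : ℝ) - (b : ℝ) ^ K * ((M : ℝ) * (w * γ)) =
        w * ((U K : ℝ) - (b : ℝ) ^ K * ((M : ℝ) * γ)) := by push_cast; ring
    rw [e, abs_mul, abs_of_pos hw0]
    exact mul_le_mul_of_nonneg_left (hU K) hw0.le) N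
  have e1 : nd M (fun K => (w : ℤ) * U K) N = nd M U N := by
    unfold nd
    congr 1
    apply Finset.filter_congr
    intro K _
    rw [not_iff_not]
    constructor
    · intro hh
      have : IsCoprime (M : ℤ) (w : ℤ) := by
        rw [Int.isCoprime_iff_gcd_eq_one, Int.gcd_natCast_natCast]
        exact hwM.symm
      exact this.dvd_of_dvd_mul_left hh
    · intro hh; exact Dvd.dvd.mul_left hh _
  have e2 : (V b (fun K => (w : ℤ) * U K) (κ * N) : ℝ) = w * (V b U (κ * N) : ℝ) := by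
    have : V b (fun K => (w : ℤ) * U K) (κ * N) = w * V b U (κ * N) := by
      unfold V
      rw [Finset.mul_sum]
      apply Finset.sum_congr rfl
      intro k _
      have : dlt b (fun K => (w : ℤ) * U K) k = w * dlt b U k := by
        cases k with
        | zero => rfl
        | succ k => simp only [dlt]; ring
      rw [this, abs_mul, abs_of_nonneg (by positivity : (0 : ℤ) ≤ w)]
    rw [this]; push_cast; ring
  rw [e1, e2] at h2
  have hV0 : (0 : ℝ) ≤ (V b U (κ * N) : ℝ) := by exact_mod_cast V_nonneg b U _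
  refine h2.trans ?_
  rw [mul_assoc, ← mul_pow]
  apply mul_le_mul_of_nonneg_left _ hC.le
  exact pow_le_pow_left₀ (by positivity) (by nlinarith) _

end Pool.Agent.L7h2.EN
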