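import Pool.Agent.L7h2.EN.Rel

/-!
Linear forms with coefficients indexed by `Fin m`.
-/

set_option autoImplicit false

namespace Pool.Agent.L7h2.EN

open Finset

/-- extension by zero -/
def ext {m : ℕ} (q : Fin m → ℤ) (t : ℕ) : ℤ := if h : t < m then q ⟨t, h⟩ else 0

lemma ext_coe {m : ℕ} (q : Fin m → ℤ) (i : Fin m) : ext q i = q i := by
  unfold ext
  rw [dif_pos i.2]

lemma sum_ext {m : ℕ} (q : Fin m → ℤ) (f : ℕ → ℤ) :
    ∑ t ∈ range m, ext q t * f t = ∑ i : Fin m, q i * f i := by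
  rw [Finset.sum_range]
  simp_rw [ext_coe]

lemma sum_ext_one {m : ℕ} (q : Fin m → ℤ) : ∑ t ∈ range m, ext q t = ∑ i : Fin m, q i := by
  rw [Finset.sum_range]
  simp_rw [ext_coe]

lemma sum_ext_real {m : ℕ} (q : Fin m → ℤ) (f : ℕ → ℝ) :
    ∑ t ∈ range m, (ext q t : ℝ) * f t = ∑ i : Fin m, (q i : ℝ) * f i := by
  rw [Finset.sum_range]
  simp_rw [ext_coe]

lemma ext_ne {m : ℕ} (q : Fin m → ℤ) (hq : q ≠ 0) : ∃ t < m, ext q t ≠ 0 := by
  obtain ⟨i, hi⟩ := Function.ne_iff.1 hq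
  refine ⟨i, i.2, ?_⟩
  rw [ext_coe]
  exact hi

end Pool.Agent.L7h2.EN
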