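import Pool.Agent.L7h2.EN.Rel

/-!
Digits of numbers close to integers; one number.
-/

set_option autoImplicit false

namespace Pool.Agent.L7h2.EN

open Polynomial Finset Filter Pool.Agent.H323R2

lemma near_digits (b : ℕ) (hb : 2 ≤ b) (x : ℝ) (K T : ℕ) (u : ℤ)
    (h : |x * (b : ℝ) ^ K - u| * (b : ℝ) ^ T < 1) :
    (∀ i, 1 ≤ i → i ≤ T → dg b x (K + i) = 0) ∨
      (∀ i, 1 ≤ i → i ≤ T → dg b x (K + i) = (b : ℤ) - 1) := by
  have hb1 : (1 : ℝ) ≤ b := by exact_mod_cast (by omega : 1 ≤ b)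
  have hb0 : (0 : ℝ) < b := by positivity
  set δ := x * (b : ℝ) ^ K - u with hδ
  have hx : ∀ i, x * (b : ℝ) ^ (K + i) = (((b : ℤ) ^ i * u : ℤ) : ℝ) + δ * (b : ℝ) ^ i := by
    intro i
    push_cast
    rw [hδ, pow_add]; ring
  have hsm : ∀ i, i ≤ T → |δ| * (b : ℝ) ^ i < 1 := by
    intro i hi
    refine lt_of_le_of_lt ?_ h
    exact mul_le_mul_of_nonneg_left (pow_le_pow_right₀ hb1 hi) (abs_nonneg _)
  rcases le_or_gt 0 δ with h0 | h0
  · left
    intro i hi1 hi2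
    have h1 := hsm i hi2
    rw [abs_of_nonneg h0] at h1
    unfold dg
    rw [hx i, Int.floor_intCast_add, Int.floor_eq_zero_iff.2 ⟨by positivity, h1⟩, add_zero]
    apply Int.emod_eq_zero_of_dvd
    exact Dvd.dvd.mul_right (dvd_pow_self _ (by omega)) _
  · right
    intro i hi1 hi2
    have h1 := hsm i hi2
    rw [abs_of_neg h0] at h1
    have hbi : (0 : ℝ) < (b : ℝ) ^ i := by positivity
    have h2 : ⌊δ * (b : ℝ) ^ i⌋ = -1 := by
      rw [Int.floor_eq_iff]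
      constructor
      · push_cast; linarith
      · push_cast
        have := mul_neg_of_neg_of_pos h0 hbi
        linarith
    unfold dg
    rw [hx i, Int.floor_intCast_add, h2]
    obtain ⟨j, rfl⟩ : ∃ j, i = j + 1 := ⟨i - 1, by omega⟩
    have e : (b : ℤ) ^ (j + 1) * u + -1 = ((b : ℤ) - 1) + b * ((b : ℤ) ^ j * u - 1) := by
      rw [pow_succ]; ring
    rw [e, Int.add_mul_emod_self_left]
    apply Int.emod_eq_of_lt
    · have : (1 : ℤ) ≤ b := by exact_mod_cast (by omega : 1 ≤ b)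
      linarith
    · linarith

open scoped Classical in
/-- the number of places `k ∈ [1, N]` which do not start a constant block of `T` digits `0` or
`b - 1` -/
noncomputable def chg (b : ℕ) (x : ℝ) (T N : ℕ) : ℕ :=
  ((Icc 1 N).filter (fun k => ¬ ((∀ i, i < T → dg b x (k + i) = 0) ∨
    (∀ i, i < T → dg b x (k + i) = (b : ℤ) - 1)))).card

lemma chg_le_far (b : ℕ) (hb : 2 ≤ b) (x : ℝ) (T : ℕ) (ε : ℝ) (hε : ε * (b : ℝ) ^ T < 1) (N : ℕ) :
    chg b x T N ≤ far b x ε N := by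
  classical
  unfold chg far
  apply Finset.card_le_card_of_injOn (fun k => k - 1)
  · intro k hk
    simp only [Finset.coe_filter, Finset.mem_range, Set.mem_ofPred_eq, Finset.mem_Icc] at hk ⊢
    refine ⟨by omega, ?_⟩
    intro u
    by_contra hcon
    push Not at hcon
    apply hk.2
    have hb0 : (0 : ℝ) < (b : ℝ) ^ T := by positivity
    have h1 : |x * (b : ℝ) ^ (k - 1) - u| * (b : ℝ) ^ T < 1 :=
      lt_of_le_of_lt (mul_le_mul_of_nonneg_right hcon hb0.le) hε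
    rcases near_digits b hb x (k - 1) T u h1 with h2 | h2
    · left
      intro i hi
      have := h2 (i + 1) (by omega) (by omega)
      rwa [show k - 1 + (i + 1) = k + i by omega] at this
    · right
      intro i hi
      have := h2 (i + 1) (by omega) (by omega)
      rwa [show k - 1 + (i + 1) = k + i by omega] at this
  · intro x hx y hy h
    simp only [Finset.coe_filter, Set.mem_ofPred_eq, Finset.mem_Icc] at hx hy
    simp only at h
    omega

lemma far_mono_eps (b : ℕ) (x ε ε' : ℝ) (h : ε ≤ ε') (N : ℕ) : far b x ε' N ≤ far b x ε N := by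
  classical
  unfold far
  apply Finset.card_le_card
  intro K hK
  rw [Finset.mem_filter] at hK ⊢
  exact ⟨hK.1, fun u => lt_of_le_of_lt h (hK.2 u)⟩

/-- passing from `β = a ξ` to `ξ` if `a c = b^s` -/
lemma far_scale (b : ℕ) (ξ : ℝ) (a c : ℤ) (s : ℕ) (hac : a * c = (b : ℤ) ^ s)
    (hc : c ≠ 0) (ε : ℝ) (N : ℕ) :
    far b ξ ε N ≤ s + far b (a * ξ) (ε / |(c : ℝ)|) N := by
  classical
  have hc0 : (0 : ℝ) < |(c : ℝ)| := abs_pos.2 (by exact_mod_cast hc)
  unfold far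
  calc ((range N).filter (fun K => ∀ u : ℤ, ε < |ξ * (b : ℝ) ^ K - u|)).card
      ≤ (range s ∪ ((range N).filter (fun K => ∀ u : ℤ, ε / |(c : ℝ)| <
          |a * ξ * (b : ℝ) ^ K - u|)).image (fun K => K + s)).card := by
        apply Finset.card_le_card
        intro K hK
        rw [Finset.mem_filter, Finset.mem_range] at hK
        rw [Finset.mem_union, Finset.mem_range]
        rcases lt_or_ge K s with h | h
        · exact Or.inl h
        · right
          rw [Finset.mem_image]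
          refine ⟨K - s, ?_, by omega⟩
          rw [Finset.mem_filter, Finset.mem_range]
          refine ⟨by omega, ?_⟩
          intro u
          rw [div_lt_iff₀ hc0, ← abs_mul]
          have h1 := hK.2 (c * u)
          have hacR : (a : ℝ) * c = (b : ℝ) ^ s := by exact_mod_cast hac
          have e : ξ * (b : ℝ) ^ K - ((c * u : ℤ) : ℝ) =
              (a * ξ * (b : ℝ) ^ (K - s) - u) * c := by
            have : (b : ℝ) ^ K = (b : ℝ) ^ (K - s) * (b : ℝ) ^ s := by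
              rw [← pow_add]; congr 1; omega
            rw [this, ← hacR]; push_cast; ring
          rw [e] at h1
          exact h1
    _ ≤ _ := by
        refine (Finset.card_union_le _ _).trans ?_
        rw [Finset.card_range]
        exact Nat.add_le_add_left Finset.card_image_le _

/-- the linear form for one number -/
noncomputable def rs1 (b : ℕ) (ξ : ℝ) (m : ℕ) (q : ℕ → ℤ) (k : ℕ) : ℤ :=
  ∑ t ∈ range m, q t * dg b ξ (k + t)

/-- number of failures for one number -/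
noncomputable def fl1 (b : ℕ) (ξ : ℝ) (m : ℕ) (q : ℕ → ℤ) (e : ℤ) (N : ℕ) : ℕ :=
  ((Icc 1 N).filter (fun k => rs1 b ξ m q k ≠ e)).card

lemma rs_one (b : ℕ) (ξ : ℝ) (m : ℕ) (q : ℕ → ℤ) (k : ℕ) :
    rs b (fun _ : Fin 1 => ξ) m (fun _ => q) k = rs1 b ξ m q k := by
  unfold rs rs1
  simp

lemma fl_one (b : ℕ) (ξ : ℝ) (m : ℕ) (q : ℕ → ℤ) (e : ℤ) (N : ℕ) :
    fl b (fun _ : Fin 1 => ξ) m (fun _ => q) e N = fl1 b ξ m q e N := by
  unfold fl fl1
  simp only [rs_one]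

lemma fl1_mono (b : ℕ) (ξ : ℝ) (m : ℕ) (q : ℕ → ℤ) (e : ℤ) {M N : ℕ}
    (h : M ≤ N) : fl1 b ξ m q e M ≤ fl1 b ξ m q e N := by
  rw [← fl_one, ← fl_one]
  exact fl_mono _ _ _ _ _ h

lemma fl1_add (b : ℕ) (ξ : ℝ) (m : ℕ) (q : ℕ → ℤ) (e : ℤ) (N L : ℕ) :
    fl1 b ξ m q e (N + L) ≤ fl1 b ξ m q e N + L := by
  rw [← fl_one, ← fl_one]
  exact fl_add _ _ _ _ _ _ _

/-- the estimate for one number -/
theorem one_far (b : ℕ) (hb : 2 ≤ b) (ξ : ℝ) (m : ℕ) (q : ℕ → ℤ) (e : ℤ) (g : ℕ) (hg : g ≠ 0)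
    (hgb : g.Coprime b) (a c : ℤ) (s : ℕ) (hA : ∑ t ∈ range m, q t * (b : ℤ) ^ t = g * a)
    (hac : a * c = (b : ℤ) ^ s) (w : ℕ) (hw : w ≠ 0) (hwM : w.Coprime ((b - 1) * g)) (h : ℤ[X])
    (hm : h.Monic) (hr : (h.map (Int.castRingHom ℝ)).eval (w * ξ) = 0) (κ : ℕ) (hκ : 1 ≤ κ)
    (hκM : ∀ p ∈ ((b - 1) * g).primeFactors, ∃ j, h.natDegree ≤ p ^ j ∧
      p ^ (j * ((b - 1) * g).factorization p) ≤ κ) (ε : ℝ) (hε : 0 < ε) :
    ∃ C : ℝ, 0 < C ∧ ∀ N : ℕ, (far b ξ ε N : ℝ) ≤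
      C * (1 + (fl1 b ξ m q e (κ * N) : ℝ)) ^ κ := by
  have hc : c ≠ 0 := by
    rintro rfl
    rw [mul_zero] at hac
    exact pow_ne_zero s (by exact_mod_cast (by omega : b ≠ 0)) hac.symm
  have hc0 : (0 : ℝ) < |(c : ℝ)| := abs_pos.2 (by exact_mod_cast hc)
  set h' := scaleRoots h a with hh'
  have hm' : h'.Monic := (monic_scaleRoots_iff _).2 hm
  have hr' : (h'.map (Int.castRingHom ℝ)).eval (w * ((a : ℝ) * ξ)) = 0 := by
    have := scaleRoots_eval₂_mul (p := h) (Int.castRingHom ℝ) (w * ξ) a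
    rw [eval_map] at hr
    rw [hr, mul_zero] at this
    rw [eval_map, hh', show (w : ℝ) * ((a : ℝ) * ξ) = (Int.castRingHom ℝ) a * (w * ξ) by
      simp; ring]
    exact this
  have hd' : h'.natDegree = h.natDegree := natDegree_scaleRoots _ _
  obtain ⟨C, hC, h1⟩ := far_bound b hb (fun _ : Fin 1 => ξ) m (fun _ => q) e g hg hgb
    ((a : ℝ) * ξ) (by
      have : ((∑ t ∈ range m, q t * (b : ℤ) ^ t : ℤ) : ℝ) = ((g * a : ℤ) : ℝ) := by
        exact_mod_cast hA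
      push_cast at this
      simp only [Finset.univ_unique, Finset.sum_singleton]
      rw [this]; ring) w hw hwM h' hm' hr' κ hκ (by rw [hd']; exact hκM)
      (ε / |(c : ℝ)|) (by positivity)
  refine ⟨C + s, by positivity, fun N => ?_⟩
  have h2 := far_scale b ξ a c s hac hc ε N
  have h3 := h1 N
  rw [fl_one] at h3
  have hE : (1 : ℝ) ≤ (1 + (fl1 b ξ m q e (κ * N) : ℝ)) ^ κ := by
    apply one_le_pow₀
    have : (0 : ℝ) ≤ (fl1 b ξ m q e (κ * N) : ℝ) := by positivity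
    linarith
  have h4 : (far b ξ ε N : ℝ) ≤ s + (far b (a * ξ) (ε / |(c : ℝ)|) N : ℝ) := by exact_mod_cast h2
  have hs : (0 : ℝ) ≤ s := by positivity
  nlinarith

/-- the prime-to-`b` part -/
lemma split_nat (b : ℕ) : ∀ A : ℕ, A ≠ 0 → ∃ g A1 s : ℕ, A = g * A1 ∧ g.Coprime b ∧ A1 ∣ b ^ s := by
  intro A
  induction A using Nat.strong_induction_on with
  | _ A ih =>
    intro hA
    by_cases hcop : A.Coprime b
    · exact ⟨A, 1, 0, by simp, hcop, by simp⟩
    · obtain ⟨p, hp, hpA, hpb⟩ := Nat.Prime.not_coprime_iff_dvd.1 hcop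
      obtain ⟨A', rfl⟩ := hpA
      have hA' : A' ≠ 0 := by rintro rfl; simp at hA
      have hlt : A' < p * A' := by
        have := hp.two_le
        have : 0 < A' := Nat.pos_of_ne_zero hA'
        nlinarith
      obtain ⟨g, A1, s, h1, h2, h3⟩ := ih A' hlt hA'
      refine ⟨g, p * A1, s + 1, ?_, h2, ?_⟩
      · rw [h1]; ring
      · rw [pow_succ, mul_comm (b ^ s) b]
        exact Nat.mul_dvd_mul hpb h3

lemma split_int (b : ℕ) (A : ℤ) (hA : A ≠ 0) : ∃ (g : ℕ) (a c : ℤ) (s : ℕ), g ≠ 0 ∧ g.Coprime b ∧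
    g ∣ A.natAbs ∧ A = g * a ∧ a * c = (b : ℤ) ^ s := by
  obtain ⟨g, A1, s, h1, h2, h3⟩ := split_nat b A.natAbs (Int.natAbs_ne_zero.2 hA)
  have hg : g ≠ 0 := by
    rintro rfl
    rw [zero_mul] at h1
    exact Int.natAbs_ne_zero.2 hA h1
  obtain ⟨c, hc⟩ := h3
  rcases Int.natAbs_eq A with h | h
  · refine ⟨g, A1, c, s, hg, h2, ⟨A1, h1⟩, ?_, ?_⟩
    · rw [h, h1]; push_cast; ring
    · exact_mod_cast hc.symm
  · refine ⟨g, -A1, -c, s, hg, h2, ⟨A1, h1⟩, ?_, ?_⟩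
    · rw [h, h1]; push_cast; ring
    · have : ((A1 * c : ℕ) : ℤ) = ((b ^ s : ℕ) : ℤ) := by exact_mod_cast hc.symm
      push_cast at this
      linarith

lemma exists_kappa (M d : ℕ) : ∃ κ : ℕ, 1 ≤ κ ∧ ∀ p ∈ M.primeFactors, ∃ j, d ≤ p ^ j ∧
    p ^ (j * M.factorization p) ≤ κ := by
  refine ⟨1 + ∑ p ∈ M.primeFactors, p ^ (d * M.factorization p), by omega, ?_⟩
  intro p hp
  refine ⟨d, (Nat.lt_pow_self (Nat.prime_of_mem_primeFactors hp).one_lt).le, ?_⟩
  have := Finset.single_le_sum (f := fun p => p ^ (d * M.factorization p))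
    (fun i _ => Nat.zero_le _) hp
  omega

lemma power_rescale (F : ℕ → ℕ) (hF : Monotone F) (κ : ℕ) (hκ : 1 ≤ κ) (C : ℝ) (hC : 0 < C)
    (h : ∀ N : ℕ, (N : ℝ) ≤ C * (1 + (F (κ * N) : ℝ)) ^ κ) :
    ∃ c : ℝ, 0 < c ∧ ∀ᶠ N : ℕ in atTop, c * (N : ℝ) ^ ((1 : ℝ) / (κ : ℝ)) ≤ (F N : ℝ) := by
  apply power_bound F κ hκ (κ * (C + 1)) (by positivity)
  intro N
  have h2 := h (N / κ)
  have h4 : (F (κ * (N / κ)) : ℝ) ≤ (F N : ℝ) := by
    exact_mod_cast hF (Nat.mul_div_le N κ)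
  have h5 : (N : ℝ) ≤ κ * (((N / κ : ℕ) : ℝ) + 1) := by
    have : N < κ * (N / κ + 1) := Nat.lt_mul_div_succ N (by omega)
    exact_mod_cast this.le
  have h6 : (1 + (F (κ * (N / κ)) : ℝ)) ^ κ ≤ (1 + (F N : ℝ)) ^ κ :=
    pow_le_pow_left₀ (by positivity) (by linarith) _
  have h8 : (1 : ℝ) ≤ (1 + (F N : ℝ)) ^ κ := by
    apply one_le_pow₀
    have : (0 : ℝ) ≤ F N := by positivity
    linarith
  calc (N : ℝ) ≤ κ * (((N / κ : ℕ) : ℝ) + 1) := h5
    _ ≤ κ * (C * (1 + (F N : ℝ)) ^ κ + 1) := by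
        apply mul_le_mul_of_nonneg_left _ (by positivity)
        have := mul_le_mul_of_nonneg_left h6 hC.le
        linarith
    _ ≤ κ * (C * (1 + (F N : ℝ)) ^ κ + (1 + (F N : ℝ)) ^ κ) := by
        apply mul_le_mul_of_nonneg_left _ (by positivity)
        linarith
    _ = _ := by ring

end Pool.Agent.L7h2.EN
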