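import Pool.Agent.L7h2.EN.Near

/-!
All nontrivial relations between the digits of one number.
-/

set_option autoImplicit false

namespace Pool.Agent.L7h2.EN

open Polynomial Finset Filter Pool.Agent.H323R2

/-- the quotient of the linear form by `X - b` -/
noncomputable def quo (b m : ℕ) (q : ℕ → ℤ) (t : ℕ) : ℤ :=
  ∑ i ∈ Ico (t + 1) (m + 1), q i * (b : ℤ) ^ (i - (t + 1))

lemma quo_rec (b m : ℕ) (q : ℕ → ℤ) (t : ℕ) (ht : t + 1 ≤ m) :
    quo b m q t = q (t + 1) + b * quo b m q (t + 1) := by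
  unfold quo
  rw [Finset.sum_eq_sum_Ico_succ_bot (by omega : t + 1 < m + 1), Finset.mul_sum]
  congr 1
  · simp
  · apply Finset.sum_congr rfl
    intro i hi
    rw [Finset.mem_Ico] at hi
    rw [show i - (t + 1) = (i - (t + 1 + 1)) + 1 by omega, pow_succ]
    ring

lemma quo_top (b m : ℕ) (q : ℕ → ℤ) : quo b m q m = 0 := by
  unfold quo
  simp

lemma quo_zero (b m : ℕ) (q : ℕ → ℤ) (hA : ∑ t ∈ range (m + 1), q t * (b : ℤ) ^ t = 0) :
    q 0 = - (b * quo b m q 0) := by
  rw [Finset.sum_range_succ'] at hA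
  unfold quo
  rw [Finset.sum_Ico_eq_sum_range, Finset.mul_sum]
  have : ∑ k ∈ range (m + 1 - (0 + 1)), (b : ℤ) * (q (0 + 1 + k) * (b : ℤ) ^ (0 + 1 + k - (0 + 1))) =
      ∑ k ∈ range m, q (k + 1) * (b : ℤ) ^ (k + 1) := by
    rw [show m + 1 - (0 + 1) = m by omega]
    apply Finset.sum_congr rfl
    intro k _
    rw [show 0 + 1 + k = k + 1 by ring, show k + 1 - (0 + 1) = k by omega, pow_succ]
    ring
  rw [this]
  simp at hA
  linarith

lemma rs1_quo (b : ℕ) (ξ : ℝ) (m : ℕ) (q : ℕ → ℤ)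
    (hA : ∑ t ∈ range (m + 1), q t * (b : ℤ) ^ t = 0) (k : ℕ) :
    rs1 b ξ (m + 1) q k = rs1 b ξ m (quo b m q) (k + 1) - b * rs1 b ξ m (quo b m q) k := by
  unfold rs1
  have h1 : ∑ t ∈ range m, quo b m q t * dg b ξ (k + 1 + t) =
      ∑ t ∈ range m, q (t + 1) * dg b ξ (k + (t + 1)) +
      b * ∑ t ∈ range m, quo b m q (t + 1) * dg b ξ (k + (t + 1)) := by
    rw [Finset.mul_sum, ← Finset.sum_add_distrib]
    apply Finset.sum_congr rfl
    intro t ht
    rw [Finset.mem_range] at ht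
    rw [quo_rec b m q t (by omega), show k + 1 + t = k + (t + 1) by ring]
    ring
  have h2 : ∑ t ∈ range m, quo b m q t * dg b ξ (k + t) =
      ∑ t ∈ range (m + 1), quo b m q t * dg b ξ (k + t) := by
    rw [Finset.sum_range_succ, quo_top]; ring
  rw [h1, h2, Finset.sum_range_succ', Finset.sum_range_succ' (fun t => quo b m q t * dg b ξ (k + t)),
    quo_zero b m q hA]
  ring

lemma rs1_abs_le (b : ℕ) (hb : 2 ≤ b) (ξ : ℝ) (m : ℕ) (q : ℕ → ℤ) (k : ℕ) :
    |rs1 b ξ m q k| ≤ ∑ t ∈ range m, |q t| * b := by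
  have := rs_abs_le b hb (fun _ : Fin 1 => ξ) m (fun _ => q) k
  rw [rs_one] at this
  simpa using this

/-- relations with `∑ q_t b^t = 0` -/
lemma red (b : ℕ) (hb : 2 ≤ b) (ξ : ℝ) (m : ℕ) (q : ℕ → ℤ) (e : ℤ)
    (hA : ∑ t ∈ range (m + 1), q t * (b : ℤ) ^ t = 0) :
    ∃ L : ℕ, ∀ N : ℕ, ((Icc 1 N).filter (fun k =>
      ((b : ℤ) - 1) * rs1 b ξ m (quo b m q) k ≠ -e)).card ≤
        L * (fl1 b ξ (m + 1) q e N + L) := by
  have hb1 : (1 : ℤ) < b := by exact_mod_cast (by omega : 1 < b)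
  have hb1' : (0 : ℤ) ≤ (b : ℤ) - 1 := by linarith
  set B : ℤ := ((b : ℤ) - 1) * (∑ t ∈ range m, |quo b m q t| * b) + |e| with hB
  obtain ⟨L, hL⟩ : ∃ L : ℕ, B < (b : ℤ) ^ L := by
    obtain ⟨L, hL⟩ := pow_unbounded_of_one_lt B hb1
    exact ⟨L, hL⟩
  refine ⟨L, fun N => ?_⟩
  have key : ∀ k, (∀ i, i < L → rs1 b ξ (m + 1) q (k + i) = e) →
      ((b : ℤ) - 1) * rs1 b ξ m (quo b m q) k = -e := by
    intro k hk
    have h1 : ∀ i, i ≤ L → ((b : ℤ) - 1) * rs1 b ξ m (quo b m q) (k + i) + e =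
        (b : ℤ) ^ i * (((b : ℤ) - 1) * rs1 b ξ m (quo b m q) k + e) := by
      intro i
      induction i with
      | zero => intro _; simp
      | succ i ih =>
        intro hi
        have h2 := ih (by omega)
        have h3 := hk i (by omega)
        rw [rs1_quo b ξ m q hA] at h3
        rw [pow_succ, mul_comm ((b : ℤ) ^ i) b, mul_assoc, ← h2, ← add_assoc]
        have : rs1 b ξ m (quo b m q) (k + i + 1) = e + b * rs1 b ξ m (quo b m q) (k + i) := by
          linarith
        rw [this]; ring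
    have h2 := h1 L le_rfl
    set z := ((b : ℤ) - 1) * rs1 b ξ m (quo b m q) k + e with hz
    have h3 : |((b : ℤ) - 1) * rs1 b ξ m (quo b m q) (k + L) + e| ≤ B := by
      refine (abs_add_le _ _).trans ?_
      rw [hB, abs_mul, abs_of_nonneg hb1']
      exact add_le_add (mul_le_mul_of_nonneg_left (rs1_abs_le b hb ξ m _ _) hb1') le_rfl
    rw [h2, abs_mul, abs_of_pos (by positivity)] at h3
    have h4 : z = 0 := by
      by_contra hne
      have : (1 : ℤ) ≤ |z| := Int.one_le_abs hne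
      have hp : (0 : ℤ) < (b : ℤ) ^ L := by positivity
      nlinarith
    rw [hz] at h4
    linarith
  have h1 : ((Icc 1 N).filter (fun k => ((b : ℤ) - 1) * rs1 b ξ m (quo b m q) k ≠ -e)).card ≤
      ∑ i ∈ range L, ((Icc 1 N).filter (fun k => rs1 b ξ (m + 1) q (k + i) ≠ e)).card := by
    refine le_trans (Finset.card_le_card ?_) Finset.card_biUnion_le
    intro k hk
    rw [Finset.mem_filter] at hk
    rw [Finset.mem_biUnion]
    by_contra hcon
    push Not at hcon
    apply hk.2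
    apply key
    intro i hi
    by_contra hne
    exact hcon i (Finset.mem_range.2 hi) (Finset.mem_filter.2 ⟨hk.1, hne⟩)
  have h2 : ∀ i ∈ range L, ((Icc 1 N).filter (fun k => rs1 b ξ (m + 1) q (k + i) ≠ e)).card ≤
      fl1 b ξ (m + 1) q e N + L := by
    intro i hi
    rw [Finset.mem_range] at hi
    refine le_trans ?_ (fl1_add b ξ (m + 1) q e N L)
    unfold fl1
    apply Finset.card_le_card_of_injOn (fun K => K + i)
    · intro K hK
      simp only [Finset.coe_filter, Set.mem_ofPred_eq, Finset.mem_Icc] at hK ⊢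
      exact ⟨⟨by omega, by omega⟩, hK.2⟩
    · intro x _ y _ h
      simpa using h
  calc _ ≤ _ := h1
    _ ≤ ∑ i ∈ range L, (fl1 b ξ (m + 1) q e N + L) := Finset.sum_le_sum h2
    _ = _ := by rw [Finset.sum_const, Finset.card_range]; simp

lemma far_le (b : ℕ) (x ε : ℝ) (N : ℕ) : far b x ε N ≤ N := by
  classical
  unfold far
  exact (Finset.card_filter_le _ _).trans (by simp)

/-- **All nontrivial relations.** -/
theorem one_all (b : ℕ) (hb : 2 ≤ b) (ξ : ℝ) (s0 : ℕ) (hint : IsIntegral ℤ ((b : ℝ) ^ s0 * ξ))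
    (ε : ℝ) (hε : 0 < ε) : ∀ (m : ℕ) (q : ℕ → ℤ) (e : ℤ), (∃ t < m, q t ≠ 0) →
    ∃ C : ℝ, 0 < C ∧ ∃ κ : ℕ, 1 ≤ κ ∧ ∀ N : ℕ, (far b ξ ε N : ℝ) ≤
      C * (1 + (fl1 b ξ m q e (κ * N) : ℝ)) ^ κ := by
  intro m
  induction m with
  | zero =>
    rintro q e ⟨t, ht, -⟩
    omega
  | succ m ih =>
    intro q e hq
    by_cases hA : ∑ t ∈ range (m + 1), q t * (b : ℤ) ^ t = 0
    · have hq1 : ∃ t < m, quo b m q t ≠ 0 := by
        by_contra hcon
        push Not at hcon
        have hall : ∀ t, t ≤ m → quo b m q t = 0 := by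
          intro t ht
          rcases Nat.lt_or_ge t m with h | h
          · exact hcon t h
          · rw [show t = m by omega]; exact quo_top b m q
        obtain ⟨t, ht, hne⟩ := hq
        apply hne
        rcases Nat.eq_zero_or_pos t with h0 | h0
        · rw [h0, quo_zero b m q hA, hall 0 (Nat.zero_le _)]; simp
        · obtain ⟨t', rfl⟩ : ∃ t', t = t' + 1 := ⟨t - 1, by omega⟩
          have := quo_rec b m q t' (by omega)
          rw [hall t' (by omega), hall (t' + 1) (by omega)] at this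
          linarith
      obtain ⟨L, hL⟩ := red b hb ξ m q e hA
      by_cases hdiv : ∃ e1 : ℤ, ((b : ℤ) - 1) * e1 = -e
      · obtain ⟨e1, he1⟩ := hdiv
        obtain ⟨C, hC, κ, hκ, h1⟩ := ih (quo b m q) e1 hq1
        refine ⟨C * (1 + L + L * L) ^ κ, by positivity, κ, hκ, fun N => ?_⟩
        have h2 : fl1 b ξ m (quo b m q) e1 (κ * N) ≤ L * (fl1 b ξ (m + 1) q e (κ * N) + L) := by
          refine le_trans ?_ (hL (κ * N))
          unfold fl1
          apply Finset.card_le_card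
          intro k hk
          rw [Finset.mem_filter] at hk ⊢
          refine ⟨hk.1, fun hh => hk.2 ?_⟩
          rw [← he1] at hh
          have hb1 : ((b : ℤ) - 1) ≠ 0 := by
            have : (2 : ℤ) ≤ b := by exact_mod_cast hb
            omega
          exact mul_left_cancel₀ hb1 hh
        refine (h1 N).trans ?_
        rw [mul_assoc, ← mul_pow]
        apply mul_le_mul_of_nonneg_left _ hC.le
        apply pow_le_pow_left₀ (by positivity)
        have h3 : (fl1 b ξ m (quo b m q) e1 (κ * N) : ℝ) ≤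
            L * ((fl1 b ξ (m + 1) q e (κ * N) : ℝ) + L) := by exact_mod_cast h2
        have h4 : (0 : ℝ) ≤ (fl1 b ξ (m + 1) q e (κ * N) : ℝ) := by positivity
        have h5 : (0 : ℝ) ≤ L := by positivity
        nlinarith [mul_nonneg h5 h5, mul_nonneg (mul_nonneg h5 h5) h4]
      · refine ⟨1 + L + L * L, by positivity, 1, le_rfl, fun N => ?_⟩
        have h2 : N ≤ L * (fl1 b ξ (m + 1) q e N + L) := by
          refine le_trans ?_ (hL N)
          rw [Finset.filter_true_of_mem]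
          · simp
          · intro k _ hh
            exact hdiv ⟨_, hh⟩
        rw [pow_one, one_mul]
        have h3 : (far b ξ ε N : ℝ) ≤ L * ((fl1 b ξ (m + 1) q e N : ℝ) + L) := by
          exact_mod_cast (far_le b ξ ε N).trans h2
        have h4 : (0 : ℝ) ≤ (fl1 b ξ (m + 1) q e N : ℝ) := by positivity
        have h5 : (0 : ℝ) ≤ L := by positivity
        nlinarith [mul_nonneg h5 h5, mul_nonneg (mul_nonneg h5 h5) h4]
    · obtain ⟨g, a, c, s, hg, hgb, -, hga, hac⟩ := split_int b _ hA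
      obtain ⟨h, hm, hr⟩ := hint
      obtain ⟨κ, hκ, hκM⟩ := exists_kappa ((b - 1) * g) h.natDegree
      have hbb : b.Coprime ((b - 1) * g) := by
        apply Nat.Coprime.mul_right _ hgb.symm
        exact (Nat.coprime_self_sub_right (by omega : 1 ≤ b)).2 (by simp)
      obtain ⟨C, hC, h1⟩ := one_far b hb ξ (m + 1) q e g hg hgb a c s hga hac (b ^ s0)
        (pow_ne_zero _ (by omega)) (Nat.Coprime.pow_left _ hbb) h hm (by
          rw [eval_map]
          push_cast
          exact hr) κ hκ hκM ε hε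
      exact ⟨C, hC, κ, hκ, h1⟩

end Pool.Agent.L7h2.EN
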