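import Pool.Agent.L7h2.EN.Dvd

/-!
Linear relations between the columns of digits of a tuple.
-/

set_option autoImplicit false

namespace Pool.Agent.L7h2.EN

open Polynomial Finset Pool.Agent.H323R2

/-- the `k`-th digit of `x` after the point in base `b` -/
noncomputable def dg (b : ℕ) (x : ℝ) (k : ℕ) : ℤ := ⌊x * (b : ℝ) ^ k⌋ % (b : ℤ)

/-- the value of the linear form on the digit matrix at the place `k` -/
noncomputable def rs (b : ℕ) {n : ℕ} (α : Fin n → ℝ) (m : ℕ) (q : Fin n → ℕ → ℤ) (k : ℕ) : ℤ :=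
  ∑ j, ∑ t ∈ range m, q j t * dg b (α j) (k + t)

/-- the number of failures up to `N` -/
noncomputable def fl (b : ℕ) {n : ℕ} (α : Fin n → ℝ) (m : ℕ) (q : Fin n → ℕ → ℤ) (e : ℤ)
    (N : ℕ) : ℕ :=
  ((Icc 1 N).filter (fun k => rs b α m q k ≠ e)).card

lemma fl_mono (b : ℕ) {n : ℕ} (α : Fin n → ℝ) (m : ℕ) (q : Fin n → ℕ → ℤ) (e : ℤ) {M N : ℕ}
    (h : M ≤ N) : fl b α m q e M ≤ fl b α m q e N := by
  unfold fl
  apply Finset.card_le_card
  apply Finset.filter_subset_filter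
  exact Finset.Icc_subset_Icc_right h

lemma fl_add (b : ℕ) {n : ℕ} (α : Fin n → ℝ) (m : ℕ) (q : Fin n → ℕ → ℤ) (e : ℤ) (N L : ℕ) :
    fl b α m q e (N + L) ≤ fl b α m q e N + L := by
  unfold fl
  calc ((Icc 1 (N + L)).filter (fun k => rs b α m q k ≠ e)).card
      ≤ ((Icc 1 N).filter (fun k => rs b α m q k ≠ e) ∪ Icc (N + 1) (N + L)).card := by
        apply Finset.card_le_card
        intro k hk
        rw [Finset.mem_filter, Finset.mem_Icc] at hk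
        rw [Finset.mem_union, Finset.mem_filter, Finset.mem_Icc, Finset.mem_Icc]
        rcases le_or_gt k N with h | h
        · exact Or.inl ⟨⟨hk.1.1, h⟩, hk.2⟩
        · exact Or.inr ⟨h, hk.1.2⟩
    _ ≤ _ := by
        refine (Finset.card_union_le _ _).trans ?_
        apply Nat.add_le_add_left
        rw [Nat.card_Icc]; omega

/-- the integer sequence attached to the relation -/
noncomputable def UU (b : ℕ) {n : ℕ} (α : Fin n → ℝ) (m : ℕ) (q : Fin n → ℕ → ℤ) (e : ℤ)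
    (K : ℕ) : ℤ :=
  ((b : ℤ) - 1) * ∑ j, ∑ t ∈ range m, q j t * ⌊α j * (b : ℝ) ^ (K + t)⌋ + e

lemma UU_succ (b : ℕ) (hb : 2 ≤ b) {n : ℕ} (α : Fin n → ℝ) (m : ℕ) (q : Fin n → ℕ → ℤ) (e : ℤ)
    (K : ℕ) : UU b α m q e (K + 1) = b * UU b α m q e K +
      ((b : ℤ) - 1) * (rs b α m q (K + 1) - e) := by
  have h1 : rs b α m q (K + 1) = ∑ j, ∑ t ∈ range m, q j t * ⌊α j * (b : ℝ) ^ (K + 1 + t)⌋ -
      b * ∑ j, ∑ t ∈ range m, q j t * ⌊α j * (b : ℝ) ^ (K + t)⌋ := by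
    unfold rs dg
    rw [Finset.mul_sum, ← Finset.sum_sub_distrib]
    apply Finset.sum_congr rfl
    intro j _
    rw [Finset.mul_sum, ← Finset.sum_sub_distrib]
    apply Finset.sum_congr rfl
    intro t _
    have := digit_eq b hb (α j) (K + t)
    rw [show K + 1 + t = K + t + 1 by ring, this]
    ring
  rw [h1]
  unfold UU
  ring

lemma UU_approx (b : ℕ) (hb : 2 ≤ b) {n : ℕ} (α : Fin n → ℝ) (m : ℕ) (q : Fin n → ℕ → ℤ) (e : ℤ)
    (K : ℕ) : |(UU b α m q e K : ℝ) - (b : ℝ) ^ K *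
      (((b : ℝ) - 1) * ∑ j, (∑ t ∈ range m, (q j t : ℝ) * (b : ℝ) ^ t) * α j)| ≤
      ((b : ℝ) - 1) * (∑ j, ∑ t ∈ range m, |(q j t : ℝ)|) + |(e : ℝ)| := by
  have hb1 : (0 : ℝ) ≤ (b : ℝ) - 1 := by
    have : (2 : ℝ) ≤ b := by exact_mod_cast hb
    linarith
  have e1 : (UU b α m q e K : ℝ) - (b : ℝ) ^ K *
      (((b : ℝ) - 1) * ∑ j, (∑ t ∈ range m, (q j t : ℝ) * (b : ℝ) ^ t) * α j) =
      ((b : ℝ) - 1) * (∑ j, ∑ t ∈ range m, (q j t : ℝ) *
        ((⌊α j * (b : ℝ) ^ (K + t)⌋ : ℝ) - α j * (b : ℝ) ^ (K + t))) + e := by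
    unfold UU
    push_cast
    have : ∑ j, ∑ t ∈ range m, (q j t : ℝ) *
        ((⌊α j * (b : ℝ) ^ (K + t)⌋ : ℝ) - α j * (b : ℝ) ^ (K + t)) =
        (∑ j, ∑ t ∈ range m, (q j t : ℝ) * (⌊α j * (b : ℝ) ^ (K + t)⌋ : ℝ)) -
          (b : ℝ) ^ K * ∑ j, (∑ t ∈ range m, (q j t : ℝ) * (b : ℝ) ^ t) * α j := by
      rw [Finset.mul_sum, ← Finset.sum_sub_distrib]
      apply Finset.sum_congr rfl
      intro j _
      rw [Finset.sum_mul, Finset.mul_sum, ← Finset.sum_sub_distrib]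
      apply Finset.sum_congr rfl
      intro t _
      rw [pow_add]; ring
    rw [this]; ring
  rw [e1]
  refine (abs_add_le _ _).trans ?_
  apply add_le_add _ le_rfl
  rw [abs_mul, abs_of_nonneg hb1]
  apply mul_le_mul_of_nonneg_left _ hb1
  refine (Finset.abs_sum_le_sum_abs _ _).trans ?_
  apply Finset.sum_le_sum
  intro j _
  refine (Finset.abs_sum_le_sum_abs _ _).trans ?_
  apply Finset.sum_le_sum
  intro t _
  rw [abs_mul]
  have a1 := Int.floor_le (α j * (b : ℝ) ^ (K + t))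
  have a2 := Int.lt_floor_add_one (α j * (b : ℝ) ^ (K + t))
  have a3 : |(⌊α j * (b : ℝ) ^ (K + t)⌋ : ℝ) - α j * (b : ℝ) ^ (K + t)| ≤ 1 := by
    rw [abs_le]
    constructor <;> linarith
  calc |(q j t : ℝ)| * |(⌊α j * (b : ℝ) ^ (K + t)⌋ : ℝ) - α j * (b : ℝ) ^ (K + t)|
      ≤ |(q j t : ℝ)| * 1 := mul_le_mul_of_nonneg_left a3 (abs_nonneg _)
    _ = _ := mul_one _

lemma dg_nonneg (b : ℕ) (hb : 2 ≤ b) (x : ℝ) (k : ℕ) : 0 ≤ dg b x k :=
  Int.emod_nonneg _ (by exact_mod_cast (by omega : b ≠ 0))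

lemma dg_lt (b : ℕ) (hb : 2 ≤ b) (x : ℝ) (k : ℕ) : dg b x k < b :=
  Int.emod_lt_of_pos _ (by exact_mod_cast (by omega : 0 < b))

lemma rs_abs_le (b : ℕ) (hb : 2 ≤ b) {n : ℕ} (α : Fin n → ℝ) (m : ℕ) (q : Fin n → ℕ → ℤ)
    (k : ℕ) : |rs b α m q k| ≤ ∑ j, ∑ t ∈ range m, |q j t| * b := by
  unfold rs
  refine (Finset.abs_sum_le_sum_abs _ _).trans ?_
  apply Finset.sum_le_sum
  intro j _
  refine (Finset.abs_sum_le_sum_abs _ _).trans ?_
  apply Finset.sum_le_sum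
  intro t _
  rw [abs_mul]
  apply mul_le_mul_of_nonneg_left _ (abs_nonneg _)
  rw [abs_of_nonneg (dg_nonneg b hb _ _)]
  exact (dg_lt b hb _ _).le

lemma V_UU (b : ℕ) (hb : 2 ≤ b) {n : ℕ} (α : Fin n → ℝ) (m : ℕ) (q : Fin n → ℕ → ℤ) (e : ℤ) :
    ∃ B : ℝ, 0 ≤ B ∧ ∀ N : ℕ, (V b (UU b α m q e) N : ℝ) ≤ B * (1 + (fl b α m q e N : ℝ)) := by
  have hb1' : (0 : ℤ) ≤ (b : ℤ) - 1 := by
    have : (2 : ℤ) ≤ b := by exact_mod_cast hb
    linarith
  set B0 : ℤ := ((b : ℤ) - 1) * ((∑ j, ∑ t ∈ range m, |q j t| * b) + |e|) with hB0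
  have hB00 : 0 ≤ B0 := by
    apply mul_nonneg hb1'
    apply add_nonneg _ (abs_nonneg _)
    exact Finset.sum_nonneg fun j _ => Finset.sum_nonneg fun t _ =>
      mul_nonneg (abs_nonneg _) (by positivity)
  have hV : ∀ N : ℕ, V b (UU b α m q e) N ≤ |UU b α m q e 0| + B0 * (fl b α m q e N : ℤ) := by
    intro N
    have e0 : (fl b α m q e N : ℤ) = ∑ k ∈ range N,
        (if rs b α m q (k + 1) ≠ e then (1 : ℤ) else 0) := by
      unfold fl
      rw [Finset.card_filter]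
      push_cast
      rw [Finset.range_eq_Ico, Finset.sum_Ico_add' (fun k => if rs b α m q k ≠ e then (1 : ℤ) else 0)
        0 N 1]
      rfl
    rw [e0]
    unfold V
    rw [Finset.sum_range_succ', add_comm, Finset.mul_sum]
    apply add_le_add (le_of_eq rfl)
    apply Finset.sum_le_sum
    intro k _
    have e4 : dlt b (UU b α m q e) (k + 1) = ((b : ℤ) - 1) * (rs b α m q (k + 1) - e) := by
      simp only [dlt]
      rw [UU_succ b hb]; ring
    rw [e4]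
    split_ifs with hc
    · rw [mul_one, abs_mul, abs_of_nonneg hb1', hB0]
      apply mul_le_mul_of_nonneg_left _ hb1'
      refine (abs_sub _ _).trans ?_
      exact add_le_add (rs_abs_le b hb α m q _) le_rfl
    · rw [not_not] at hc
      rw [hc]; simp
  refine ⟨(|UU b α m q e 0| : ℤ) + B0, ?_, ?_⟩
  · have : (0 : ℤ) ≤ |UU b α m q e 0| + B0 := by positivity
    exact_mod_cast this
  intro N
  have h1 := hV N
  have h2 : ((V b (UU b α m q e) N : ℤ) : ℝ) ≤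
      ((|UU b α m q e 0| + B0 * (fl b α m q e N : ℤ) : ℤ) : ℝ) := by exact_mod_cast h1
  refine h2.trans ?_
  have h3 : (0 : ℤ) ≤ |UU b α m q e 0| := abs_nonneg _
  have h4 : (|UU b α m q e 0| + B0 * (fl b α m q e N : ℤ) : ℤ) ≤
      (|UU b α m q e 0| + B0) * (1 + (fl b α m q e N : ℤ)) := by
    have : (0 : ℤ) ≤ (fl b α m q e N : ℤ) := by positivity
    nlinarith
  have h5 : ((|UU b α m q e 0| + B0 * (fl b α m q e N : ℤ) : ℤ) : ℝ) ≤
      (((|UU b α m q e 0| + B0) * (1 + (fl b α m q e N : ℤ)) : ℤ) : ℝ) := by exact_mod_cast h4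
  refine h5.trans (le_of_eq ?_)
  push_cast
  rfl

lemma UU_iter (b : ℕ) (hb : 2 ≤ b) {n : ℕ} (α : Fin n → ℝ) (m : ℕ) (q : Fin n → ℕ → ℤ) (e : ℤ)
    (K L : ℕ) (h : ∀ i, 1 ≤ i → i ≤ L → rs b α m q (K + i) = e) :
    UU b α m q e (K + L) = (b : ℤ) ^ L * UU b α m q e K := by
  induction L with
  | zero => simp
  | succ L ih =>
    have h1 := ih (fun i h1 h2 => h i h1 (by omega))
    rw [← add_assoc, UU_succ b hb, h1, add_assoc, h (L + 1) (by omega) le_rfl, pow_succ]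
    ring

/-- if the relation holds at the places `K + 1, …, K + L` then `U_K` is close to `b^K θ` -/
lemma UU_close (b : ℕ) (hb : 2 ≤ b) {n : ℕ} (α : Fin n → ℝ) (m : ℕ) (q : Fin n → ℕ → ℤ) (e : ℤ)
    (θ C0 : ℝ) (hU : ∀ K, |(UU b α m q e K : ℝ) - (b : ℝ) ^ K * θ| ≤ C0)
    (K L : ℕ) (h : ∀ i, 1 ≤ i → i ≤ L → rs b α m q (K + i) = e) :
    |(UU b α m q e K : ℝ) - (b : ℝ) ^ K * θ| ≤ C0 / (b : ℝ) ^ L := by
  have hb0 : (0 : ℝ) < b := by positivity
  have h1 := hU (K + L)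
  rw [UU_iter b hb α m q e K L h] at h1
  have e1 : (((b : ℤ) ^ L * UU b α m q e K : ℤ) : ℝ) - (b : ℝ) ^ (K + L) * θ =
      (b : ℝ) ^ L * ((UU b α m q e K : ℝ) - (b : ℝ) ^ K * θ) := by
    push_cast; rw [pow_add]; ring
  rw [e1, abs_mul, abs_of_pos (pow_pos hb0 L)] at h1
  rw [le_div_iff₀ (pow_pos hb0 L), mul_comm]
  exact h1

open scoped Classical in
/-- the number of `K < N` for which `b^K β` is not within `ε` of an integer -/
noncomputable def far (b : ℕ) (β ε : ℝ) (N : ℕ) : ℕ :=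
  ((range N).filter (fun K => ∀ u : ℤ, ε < |β * (b : ℝ) ^ K - u|)).card

open scoped Classical in
/-- the number of `K < N` for which the relation fails at one of the places `K + 1, …, K + L` -/
noncomputable def wf (b : ℕ) {n : ℕ} (α : Fin n → ℝ) (m : ℕ) (q : Fin n → ℕ → ℤ) (e : ℤ)
    (L N : ℕ) : ℕ :=
  ((range N).filter (fun K => ∃ i, 1 ≤ i ∧ i ≤ L ∧ rs b α m q (K + i) ≠ e)).card

lemma wf_le (b : ℕ) {n : ℕ} (α : Fin n → ℝ) (m : ℕ) (q : Fin n → ℕ → ℤ) (e : ℤ)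
    (L N : ℕ) : wf b α m q e L N ≤ L * (fl b α m q e N + L) := by
  classical
  have h1 : wf b α m q e L N ≤ ∑ i ∈ Icc 1 L,
      ((range N).filter (fun K => rs b α m q (K + i) ≠ e)).card := by
    unfold wf
    refine le_trans (Finset.card_le_card ?_) Finset.card_biUnion_le
    intro K hK
    rw [Finset.mem_filter] at hK
    obtain ⟨hK1, i, hi1, hi2, hi3⟩ := hK
    rw [Finset.mem_biUnion]
    exact ⟨i, Finset.mem_Icc.2 ⟨hi1, hi2⟩, Finset.mem_filter.2 ⟨hK1, hi3⟩⟩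
  have h2 : ∀ i ∈ Icc 1 L, ((range N).filter (fun K => rs b α m q (K + i) ≠ e)).card ≤
      fl b α m q e N + L := by
    intro i hi
    rw [Finset.mem_Icc] at hi
    refine le_trans ?_ (fl_add b α m q e N L)
    unfold fl
    apply Finset.card_le_card_of_injOn (fun K => K + i)
    · intro K hK
      simp only [Finset.coe_filter, Finset.mem_range, Set.mem_ofPred_eq, Finset.mem_Icc] at hK ⊢
      exact ⟨⟨by omega, by omega⟩, hK.2⟩
    · intro x _ y _ h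
      simpa using h
  calc wf b α m q e L N ≤ _ := h1
    _ ≤ ∑ i ∈ Icc 1 L, (fl b α m q e N + L) := Finset.sum_le_sum h2
    _ = _ := by rw [Finset.sum_const, Nat.card_Icc]; simp

/-- **Main estimate.** -/
theorem far_bound (b : ℕ) (hb : 2 ≤ b) {n : ℕ} (α : Fin n → ℝ) (m : ℕ) (q : Fin n → ℕ → ℤ)
    (e : ℤ) (g : ℕ) (hg : g ≠ 0) (hgb : g.Coprime b) (β : ℝ)
    (hβ : ∑ j, (∑ t ∈ range m, (q j t : ℝ) * (b : ℝ) ^ t) * α j = g * β)
    (w : ℕ) (hw : w ≠ 0) (hwM : w.Coprime ((b - 1) * g)) (h : ℤ[X]) (hm : h.Monic)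
    (hr : (h.map (Int.castRingHom ℝ)).eval (w * β) = 0) (κ : ℕ) (hκ : 1 ≤ κ)
    (hκM : ∀ p ∈ ((b - 1) * g).primeFactors, ∃ j, h.natDegree ≤ p ^ j ∧
      p ^ (j * ((b - 1) * g).factorization p) ≤ κ) (ε : ℝ) (hε : 0 < ε) :
    ∃ C : ℝ, 0 < C ∧ ∀ N : ℕ, (far b β ε N : ℝ) ≤ C * (1 + (fl b α m q e (κ * N) : ℝ)) ^ κ := by
  classical
  have hb0 : (0 : ℝ) < b := by positivity
  have hb1 : (1 : ℝ) < b := by exact_mod_cast (by omega : 1 < b)
  set M := (b - 1) * g with hMdef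
  have hM : M ≠ 0 := Nat.mul_ne_zero (by omega) hg
  have hM1 : (1 : ℝ) ≤ M := by exact_mod_cast Nat.one_le_iff_ne_zero.2 hM
  have hcop : M.Coprime b := by
    apply Nat.Coprime.mul_left _ hgb
    exact (Nat.coprime_self_sub_left (by omega : 1 ≤ b)).2 (by simp)
  set C0 : ℝ := ((b : ℝ) - 1) * (∑ j, ∑ t ∈ range m, |(q j t : ℝ)|) + |(e : ℝ)| with hC0
  have hU : ∀ K, |(UU b α m q e K : ℝ) - (b : ℝ) ^ K * ((M : ℝ) * β)| ≤ C0 := by
    intro K
    have h1 := UU_approx b hb α m q e K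
    rw [hβ] at h1
    have e1 : ((b : ℝ) - 1) * (g * β) = (M : ℝ) * β := by
      rw [hMdef]
      push_cast [Nat.cast_sub (by omega : 1 ≤ b)]
      ring
    rw [e1] at h1
    exact h1
  obtain ⟨C1, hC1, h1⟩ := nd_den b hb M hM hcop h hm β w hw hwM hr κ hκM C0
  obtain ⟨B, hB, hV⟩ := V_UU b hb α m q e
  obtain ⟨L, hL⟩ : ∃ L : ℕ, C0 / (b : ℝ) ^ L ≤ ε := by
    obtain ⟨L, hL⟩ := pow_unbounded_of_one_lt (C0 / ε) hb1
    refine ⟨L, ?_⟩
    rw [div_lt_iff₀ hε] at hL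
    rw [div_le_iff₀ (pow_pos hb0 L)]
    linarith
  refine ⟨C1 * (1 + B) ^ κ + L * (1 + L), by positivity, ?_⟩
  intro N
  have hcard : far b β ε N ≤ nd M (UU b α m q e) N + wf b α m q e L N := by
    unfold far nd wf
    rw [← Finset.card_union_add_card_inter]
    refine le_trans (Finset.card_le_card ?_) (Nat.le_add_right _ _)
    intro K hK
    rw [Finset.mem_filter, Finset.mem_range] at hK
    rw [Finset.mem_union, Finset.mem_filter, Finset.mem_filter, Finset.mem_range, Finset.mem_range]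
    by_contra hcon
    push Not at hcon
    have a1 := hcon.1 (by omega)
    have a2 := hcon.2 hK.1
    obtain ⟨u, hu⟩ := a1
    have a3 := UU_close b hb α m q e ((M : ℝ) * β) C0 hU K L a2
    have a4 := hK.2 u
    rw [hu] at a3
    have e1 : (((M : ℤ) * u : ℤ) : ℝ) - (b : ℝ) ^ K * ((M : ℝ) * β) =
        (M : ℝ) * (u - β * (b : ℝ) ^ K) := by push_cast; ring
    rw [e1, abs_mul, abs_of_pos (by linarith : (0 : ℝ) < M), abs_sub_comm] at a3
    have a5 : |β * (b : ℝ) ^ K - u| ≤ (M : ℝ) * |β * (b : ℝ) ^ K - u| := by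
      have := abs_nonneg (β * (b : ℝ) ^ K - u)
      nlinarith
    linarith
  have h2 := h1 (UU b α m q e) hU N
  have h3 := hV (κ * N)
  have h4 := wf_le b α m q e L N
  have h5 : fl b α m q e N ≤ fl b α m q e (κ * N) :=
    fl_mono b α m q e (Nat.le_mul_of_pos_left _ hκ)
  set E : ℝ := (fl b α m q e (κ * N) : ℝ) with hE
  have hE0 : 0 ≤ E := by positivity
  have hEp : (1 : ℝ) ≤ (1 + E) ^ κ := one_le_pow₀ (by linarith)
  have hEs : 1 + E ≤ (1 + E) ^ κ := le_self_pow₀ (by linarith) (by omega)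
  have hV0 : (0 : ℝ) ≤ (V b (UU b α m q e) (κ * N) : ℝ) := by
    exact_mod_cast V_nonneg b _ _
  have h6 : (nd M (UU b α m q e) N : ℝ) ≤ C1 * (1 + B) ^ κ * (1 + E) ^ κ := by
    refine h2.trans ?_
    rw [mul_assoc, ← mul_pow]
    apply mul_le_mul_of_nonneg_left _ hC1.le
    apply pow_le_pow_left₀ (by linarith)
    nlinarith
  have h7 : (wf b α m q e L N : ℝ) ≤ L * (1 + L) * (1 + E) ^ κ := by
    have a1 : (wf b α m q e L N : ℝ) ≤ L * ((fl b α m q e N : ℝ) + L) := by exact_mod_cast h4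
    have a2 : (fl b α m q e N : ℝ) ≤ E := by rw [hE]; exact_mod_cast h5
    have a3 : ((fl b α m q e N : ℝ) + L) ≤ (1 + L) * (1 + E) ^ κ := by
      have : (0 : ℝ) ≤ L := by positivity
      nlinarith
    calc (wf b α m q e L N : ℝ) ≤ L * ((fl b α m q e N : ℝ) + L) := a1
      _ ≤ L * ((1 + L) * (1 + E) ^ κ) := mul_le_mul_of_nonneg_left a3 (by positivity)
      _ = _ := by ring
  have h8 : (far b β ε N : ℝ) ≤ (nd M (UU b α m q e) N : ℝ) + (wf b α m q e L N : ℝ) := by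
    exact_mod_cast hcard
  calc (far b β ε N : ℝ) ≤ _ := h8
    _ ≤ C1 * (1 + B) ^ κ * (1 + E) ^ κ + L * (1 + L) * (1 + E) ^ κ := add_le_add h6 h7
    _ = _ := by ring

end Pool.Agent.L7h2.EN
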