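import Pool.Agent.L7h2.EN.Cases
import Pool.Agent.L7h2.EN.Ext

/-!
Explicit exponents for `√2` in base 2.
-/

set_option autoImplicit false

namespace Pool.Agent.L7h2.EN

open Polynomial Finset Filter

theorem sqrt_two (m : ℕ) (q : ℕ → ℤ) (e : ℤ) (hA : ∑ t ∈ range m, q t * (2 : ℤ) ^ t ≠ 0)
    (he0 : e ≠ 0) (he1 : e ≠ ∑ t ∈ range m, q t) (κ : ℕ) (hκ : 1 ≤ κ)
    (hκ2 : ∀ p r : ℕ, p.Prime → p ≠ 2 → (p : ℤ) ^ r ∣ ∑ t ∈ range m, q t * (2 : ℤ) ^ t →
      p ^ r ≤ κ) :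
    ∃ c : ℝ, 0 < c ∧ ∀ᶠ N : ℕ in atTop,
      c * (N : ℝ) ^ ((1 : ℝ) / (κ : ℝ)) ≤ (fl1 2 (√2) m q e N : ℝ) := by
  obtain ⟨g, a, c, s, hg, hgb, hgA, hga, hac⟩ := split_int 2 _ hA
  have hdeg : (X ^ 2 - C 2 : ℤ[X]).natDegree = 2 := by
    rw [natDegree_sub_C, natDegree_X_pow]
  refine one_explicit 2 le_rfl (√2) m q e g hg hgb a c s (by push_cast; exact hga)
    (by push_cast; exact hac) 1 one_ne_zero (Nat.coprime_one_left _) (X ^ 2 - C 2 : ℤ[X])
    (monic_X_pow_sub_C 2 two_ne_zero) ?_ κ hκ ?_ he0 ?_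
  · simp
  · intro p hp
    have hp' : p ∈ g.primeFactors := by simpa using hp
    have hpp : p.Prime := Nat.prime_of_mem_primeFactors hp'
    have hpg : p ∣ g := Nat.dvd_of_mem_primeFactors hp'
    have hp2 : p ≠ 2 := by
      rintro rfl
      have := Nat.dvd_gcd hpg (dvd_refl 2)
      rw [hgb.gcd_eq_one] at this
      omega
    refine ⟨1, ?_, ?_⟩
    · rw [hdeg, pow_one]; exact hpp.two_le
    · simp only [Nat.reduceSub, one_mul]
      apply hκ2 p _ hpp hp2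
      have h1 : p ^ g.factorization p ∣ g := Nat.ordProj_dvd g p
      have h2 := h1.trans hgA
      have h3 : ((p ^ g.factorization p : ℕ) : ℤ) ∣ ∑ t ∈ range m, q t * ((2 : ℕ) : ℤ) ^ t := by
        rw [Int.natCast_dvd]
        exact h2
      push_cast at h3
      exact h3
  · intro hh
    apply he1
    rw [hh]; push_cast; ring

end Pool.Agent.L7h2.EN
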